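import Pool.Agent.MP_f1b527_co.Cover

/-!
# Few twin classes: counting order preserving maps to a long chain
-/

set_option autoImplicit false

namespace Pool.Agent.FTP

open Finset Pool.Agent.MP_f1b527_co
open scoped Classical

variable {n : ℕ}

/-- the maps to a chain of size `N` that are increasing along `r` -/
noncomputable def om (r : Fin n → Fin n → Prop) (N : ℕ) : Finset (Fin n → Fin N) :=
  univ.filter fun f => ∀ a b, r a b → f a < f b

theorem mem_om {r : Fin n → Fin n → Prop} {N : ℕ} {f : Fin n → Fin N} :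
    f ∈ om r N ↔ ∀ a b, r a b → f a < f b := by
  unfold om
  rw [mem_filter]
  exact ⟨fun h => h.2, fun h => ⟨mem_univ _, h⟩⟩

/-- the linear extensions -/
noncomputable def le (r : Fin n → Fin n → Prop) : Finset (Equiv.Perm (Fin n)) :=
  univ.filter fun σ => ∀ a b, r a b → σ a < σ b

theorem mem_le {r : Fin n → Fin n → Prop} {σ : Equiv.Perm (Fin n)} :
    σ ∈ le r ↔ ∀ a b, r a b → σ a < σ b := by
  unfold le
  rw [mem_filter]
  exact ⟨fun h => h.2, fun h => ⟨mem_univ _, h⟩⟩

theorem ncard_extSet (r : Fin n → Fin n → Prop) : (extSet r).ncard = (le r).card := by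
  rw [← Set.ncard_coe_finset]
  congr 1
  ext σ
  rw [mem_coe, mem_le]
  rfl

/-- the map with a given set of values and a given order -/
def mk {N : ℕ} (p : Equiv.Perm (Fin n) × {S : Finset (Fin N) // S.card = n}) : Fin n → Fin N :=
  fun a => p.2.1.orderEmbOfFin p.2.2 (p.1 a)

theorem mk_inj {N : ℕ} : Function.Injective (mk (n := n) (N := N)) := by
  rintro ⟨σ, S, hS⟩ ⟨τ, T, hT⟩ h
  have h1 : S = T := by
    have h2 : Set.range (mk (σ, ⟨S, hS⟩)) = (S : Set (Fin N)) := by
      rw [← range_orderEmbOfFin S hS]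
      exact σ.surjective.range_comp (S.orderEmbOfFin hS)
    have h3 : Set.range (mk (τ, ⟨T, hT⟩)) = (T : Set (Fin N)) := by
      rw [← range_orderEmbOfFin T hT]
      exact τ.surjective.range_comp (T.orderEmbOfFin hT)
    rw [h, h3] at h2
    exact_mod_cast h2.symm
  subst h1
  have h4 : σ = τ := by
    ext a
    have h5 := congrFun h a
    exact congrArg Fin.val ((S.orderEmbOfFin hS).injective h5)
  subst h4
  rfl

theorem mk_mem {N : ℕ} {r : Fin n → Fin n → Prop} {p : Equiv.Perm (Fin n) × {S : Finset (Fin N) // S.card = n}} :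
    mk p ∈ om r N ↔ p.1 ∈ le r := by
  rw [mem_om, mem_le]
  exact forall_congr' fun a => forall_congr' fun b => imp_congr_right fun _ =>
    (p.2.1.orderEmbOfFin p.2.2).lt_iff_lt

theorem om_ge (r : Fin n → Fin n → Prop) (N : ℕ) : (le r).card * N.choose n ≤ (om r N).card := by
  have h1 : (le r ×ˢ (univ : Finset {S : Finset (Fin N) // S.card = n})).card = (le r).card * N.choose n := by
    rw [card_product, card_univ, Fintype.card_finset_len, Fintype.card_fin]
  rw [← h1]
  refine card_le_card_of_injOn mk ?_ (mk_inj.injOn)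
  intro p hp
  rw [mem_coe, mem_product] at hp
  exact mk_mem.2 hp.1

theorem exists_mk {N : ℕ} (f : Fin n → Fin N) (hf : Function.Injective f) : ∃ p, mk (n := n) (N := N) p = f := by
  have hS : (univ.image f).card = n := by
    rw [card_image_of_injective _ hf, card_univ, Fintype.card_fin]
  set e := (univ.image f).orderIsoOfFin hS with he
  let s : Fin n → Fin n := fun a => e.symm ⟨f a, mem_image_of_mem f (mem_univ a)⟩
  have hs : Function.Injective s := by
    intro a b hab
    have h1 := e.symm.injective hab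
    exact hf (congrArg Subtype.val h1)
  refine ⟨(Equiv.ofBijective s (Finite.injective_iff_bijective.1 hs), ⟨univ.image f, hS⟩), ?_⟩
  funext a
  show ((univ.image f).orderEmbOfFin hS (s a)) = f a
  rw [← coe_orderIsoOfFin_apply]
  show ((e (e.symm ⟨f a, mem_image_of_mem f (mem_univ a)⟩) : (univ.image f : Finset (Fin N))) : Fin N) = f a
  rw [OrderIso.apply_symm_apply]

/-- the maps that identify two points -/
theorem card_eq_le {N : ℕ} {a b : Fin n} (hab : a ≠ b) :
    (univ.filter fun f : Fin n → Fin N => f a = f b).card ≤ N ^ (n - 1) := by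
  have h1 : (univ : Finset ({x : Fin n // x ≠ b} → Fin N)).card = N ^ (n - 1) := by
    rw [card_univ, Fintype.card_fun, Fintype.card_fin, Fintype.card_subtype_compl, Fintype.card_fin,
      Fintype.card_subtype_eq]
  rw [← h1]
  refine card_le_card_of_injOn (fun f x => f x.1) (fun _ _ => mem_univ _) ?_
  intro f hf g hg hfg
  have hf' := (mem_filter.1 (mem_coe.1 hf)).2
  have hg' := (mem_filter.1 (mem_coe.1 hg)).2
  have h2 : ∀ x, x ≠ b → f x = g x := fun x hx => congrFun hfg ⟨x, hx⟩
  funext x
  by_cases hx : x = b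
  · rw [hx, ← hf', ← hg', h2 a hab]
  · exact h2 x hx

theorem om_le (r : Fin n → Fin n → Prop) (N : ℕ) :
    (om r N).card ≤ (le r).card * N.choose n + n ^ 2 * N ^ (n - 1) := by
  have h1 : om r N ⊆ (le r ×ˢ (univ : Finset {S : Finset (Fin N) // S.card = n})).image mk ∪
      ((univ : Finset (Fin n × Fin n)).filter fun p => p.1 ≠ p.2).biUnion
        fun p => univ.filter fun f : Fin n → Fin N => f p.1 = f p.2 := by
    intro f hf
    rw [mem_union]
    by_cases hinj : Function.Injective f
    · left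
      obtain ⟨p, hp⟩ := exists_mk f hinj
      rw [mem_image]
      refine ⟨p, mem_product.2 ⟨?_, mem_univ _⟩, hp⟩
      rw [← hp] at hf
      exact mk_mem.1 hf
    · right
      unfold Function.Injective at hinj
      push Not at hinj
      obtain ⟨a, b, hab, hne⟩ := hinj
      rw [mem_biUnion]
      exact ⟨(a, b), mem_filter.2 ⟨mem_univ _, hne⟩, mem_filter.2 ⟨mem_univ _, hab⟩⟩
  refine (card_le_card h1).trans ((card_union_le _ _).trans (Nat.add_le_add ?_ ?_))
  · refine card_image_le.trans (le_of_eq ?_)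
    rw [card_product, card_univ, Fintype.card_finset_len, Fintype.card_fin]
  · refine card_biUnion_le.trans ?_
    refine (sum_le_card_nsmul _ _ (N ^ (n - 1)) fun p hp => card_eq_le (mem_filter.1 hp).2).trans ?_
    rw [smul_eq_mul]
    refine Nat.mul_le_mul_right _ ((card_filter_le _ _).trans (le_of_eq ?_))
    rw [card_univ, Fintype.card_prod, Fintype.card_fin, sq]

/-- the error term is small for long chains -/
theorem exists_long (hn : 1 ≤ n) (K : ℕ) : ∃ N, 1 ≤ N ∧ 1 ≤ N.choose n ∧
    K * (n ^ 2 * N ^ (n - 1)) ≤ N.choose n := by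
  set M := n.factorial * K * n ^ 2 * 2 ^ (n - 1) + n with hM
  have h1 : (2 * M + 1 - n) ^ n ≤ n.factorial * (2 * M).choose n := by
    rw [← Nat.descFactorial_eq_factorial_mul_choose]
    exact Nat.pow_sub_le_descFactorial (2 * M) n
  have h2 : M ^ n ≤ n.factorial * (2 * M).choose n := (Nat.pow_le_pow_left (by omega) n).trans h1
  have hMn : M ^ n = M * M ^ (n - 1) := by
    rw [← pow_succ']
    congr 1
    omega
  refine ⟨2 * M, by omega, Nat.choose_pos (by omega), ?_⟩
  refine Nat.le_of_mul_le_mul_left ?_ (Nat.factorial_pos n)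
  calc n.factorial * (K * (n ^ 2 * (2 * M) ^ (n - 1)))
      = (n.factorial * K * n ^ 2 * 2 ^ (n - 1)) * M ^ (n - 1) := by rw [mul_pow]; ring
    _ ≤ M * M ^ (n - 1) := Nat.mul_le_mul_right _ (by omega)
    _ = M ^ n := hMn.symm
    _ ≤ _ := h2

/-- log-convexity for order preserving maps gives log-convexity for linear extensions -/
theorem le_of_om (hn : 1 ≤ n) {r s t : Fin n → Fin n → Prop}
    (h : ∀ N, (om r N).card ^ 2 ≤ (om s N).card * (om t N).card) :
    (le r).card ^ 2 ≤ (le s).card * (le t).card := by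
  by_contra hcon
  push Not at hcon
  set a := (le r).card with ha
  set b := (le s).card with hb
  set c := (le t).card with hc
  obtain ⟨N, hN1, hN2, hN⟩ := exists_long hn (b + c + 2)
  set C := N.choose n with hC
  set D := n ^ 2 * N ^ (n - 1) with hD
  have h1 : (a * C) ^ 2 ≤ (b * C + D) * (c * C + D) :=
    (Nat.pow_le_pow_left (om_ge r N) 2).trans ((h N).trans (Nat.mul_le_mul (om_le s N) (om_le t N)))
  have h2 : (b * c + 1) * C ^ 2 ≤ (b * C + D) * (c * C + D) := by
    refine le_trans ?_ h1
    rw [mul_pow]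
    exact Nat.mul_le_mul_right _ hcon
  have h3 : C ^ 2 ≤ (b + c) * C * D + D ^ 2 := by
    have e1 : (b * c + 1) * C ^ 2 = b * c * C ^ 2 + C ^ 2 := by ring
    have e2 : (b * C + D) * (c * C + D) = b * c * C ^ 2 + ((b + c) * C * D + D ^ 2) := by ring
    rw [e1, e2] at h2
    exact Nat.le_of_add_le_add_left h2
  have h4 : (b + c + 2) ^ 2 * C ^ 2 ≤ ((b + c) * (b + c + 2) + 1) * C ^ 2 := by
    calc (b + c + 2) ^ 2 * C ^ 2 ≤ (b + c + 2) ^ 2 * ((b + c) * C * D + D ^ 2) := Nat.mul_le_mul_left _ h3
      _ = (b + c) * (b + c + 2) * C * ((b + c + 2) * D) + ((b + c + 2) * D) ^ 2 := by ring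
      _ ≤ (b + c) * (b + c + 2) * C * C + C ^ 2 :=
          Nat.add_le_add (Nat.mul_le_mul_left _ hN) (Nat.pow_le_pow_left hN 2)
      _ = _ := by ring
  have h5 : (b + c + 2) ^ 2 ≤ (b + c) * (b + c + 2) + 1 :=
    Nat.le_of_mul_le_mul_right h4 (by positivity)
  nlinarith

end Pool.Agent.FTP
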