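import Pool.Agent.FTP.T1

/-!
# Few twin classes: the product formula and the Cauchy-Schwarz step
-/

set_option autoImplicit false

namespace Pool.Agent.FTP

open Finset Pool.Agent.MP_f1b527_co
open scoped Classical

variable {n : ℕ}

/-- the relation pulled back along a map -/
def pb (r : Fin n → Fin n → Prop) (φ : Fin n → Fin n) (a b : Fin n) : Prop := r (φ a) (φ b)

/-- the increasing maps off `Z` -/
noncomputable def off (r : Fin n → Fin n → Prop) (Z : Finset (Fin n)) (N : ℕ) :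
    Finset ({x // x ∉ Z} → Fin N) :=
  univ.filter fun g => ∀ a b : {x // x ∉ Z}, r a.1 b.1 → g a < g b

/-- the window of the point `y` -/
noncomputable def win (r : Fin n → Fin n → Prop) (Z : Finset (Fin n)) {N : ℕ}
    (g : {x // x ∉ Z} → Fin N) (y : Fin n) : Finset (Fin N) :=
  univ.filter fun v => ∀ w : {x // x ∉ Z}, (r w.1 y → g w < v) ∧ (r y w.1 → v < g w)

theorem mem_win {r : Fin n → Fin n → Prop} {Z : Finset (Fin n)} {N : ℕ}
    {g : {x // x ∉ Z} → Fin N} {y : Fin n} {v : Fin N} :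
    v ∈ win r Z g y ↔ ∀ w : {x // x ∉ Z}, (r w.1 y → g w < v) ∧ (r y w.1 → v < g w) := by
  unfold win
  rw [mem_filter]
  exact ⟨fun h => h.2, fun h => ⟨mem_univ _, h⟩⟩

theorem mem_off {r : Fin n → Fin n → Prop} {Z : Finset (Fin n)} {N : ℕ}
    {g : {x // x ∉ Z} → Fin N} :
    g ∈ off r Z N ↔ ∀ a b : {x // x ∉ Z}, r a.1 b.1 → g a < g b := by
  unfold off
  rw [mem_filter]
  exact ⟨fun h => h.2, fun h => ⟨mem_univ _, h⟩⟩

theorem mem_om_pb {r : Fin n → Fin n → Prop} {Z : Finset (Fin n)} {φ : Fin n → Fin n}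
    (h1 : ∀ x, x ∉ Z → φ x = x) (h2 : ∀ x ∈ Z, φ x ∈ Z)
    (h3 : ∀ x ∈ Z, ∀ y ∈ Z, r x y → ∃ w, w ∉ Z ∧ r x w ∧ r w y) {N : ℕ} {f : Fin n → Fin N} :
    f ∈ om (pb r φ) N ↔ (fun x : {x // x ∉ Z} => f x.1) ∈ off r Z N ∧
      ∀ z ∈ Z, f z ∈ win r Z (fun x : {x // x ∉ Z} => f x.1) (φ z) := by
  rw [mem_om, mem_off]
  constructor
  · intro h
    refine ⟨fun a b hab => h a.1 b.1 ?_, fun z hz => mem_win.2 fun w => ⟨fun hr => ?_, fun hr => ?_⟩⟩
    · show r (φ a.1) (φ b.1)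
      rw [h1 _ a.2, h1 _ b.2]
      exact hab
    · refine h w.1 z ?_
      show r (φ w.1) (φ z)
      rw [h1 _ w.2]
      exact hr
    · refine h z w.1 ?_
      show r (φ z) (φ w.1)
      rw [h1 _ w.2]
      exact hr
  · rintro ⟨ha, hb⟩ x y hxy
    have hxy' : r (φ x) (φ y) := hxy
    by_cases hx : x ∈ Z
    · by_cases hy : y ∈ Z
      · obtain ⟨w, hw, hw1, hw2⟩ := h3 _ (h2 x hx) _ (h2 y hy) hxy'
        exact lt_trans ((mem_win.1 (hb x hx) ⟨w, hw⟩).2 hw1) ((mem_win.1 (hb y hy) ⟨w, hw⟩).1 hw2)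
      · rw [h1 y hy] at hxy'
        exact (mem_win.1 (hb x hx) ⟨y, hy⟩).2 hxy'
    · rw [h1 x hx] at hxy'
      by_cases hy : y ∈ Z
      · exact (mem_win.1 (hb y hy) ⟨x, hx⟩).1 hxy'
      · rw [h1 y hy] at hxy'
        exact ha ⟨x, hx⟩ ⟨y, hy⟩ hxy'

/-- the product formula -/
theorem card_om_pb {r : Fin n → Fin n → Prop} {Z : Finset (Fin n)} {φ : Fin n → Fin n}
    (h1 : ∀ x, x ∉ Z → φ x = x) (h2 : ∀ x ∈ Z, φ x ∈ Z)
    (h3 : ∀ x ∈ Z, ∀ y ∈ Z, r x y → ∃ w, w ∉ Z ∧ r x w ∧ r w y) (N : ℕ) :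
    (om (pb r φ) N).card = ∑ g ∈ off r Z N, ∏ z ∈ Z, (win r Z g (φ z)).card := by
  rw [card_eq_sum_card_fiberwise (f := fun f : Fin n → Fin N => fun x : {x // x ∉ Z} => f x.1)
    (t := off r Z N)]
  · refine sum_congr rfl fun g hg => ?_
    have e1 : ∏ z ∈ Z, (win r Z g (φ z)).card =
        (Fintype.piFinset fun z : {x // x ∈ Z} => win r Z g (φ z.1)).card := by
      rw [Fintype.card_piFinset]
      exact (prod_coe_sort Z fun z => (win r Z g (φ z)).card).symm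
    rw [e1]
    refine card_nbij' (fun f z => f z.1)
      (fun h x => if hx : x ∈ Z then h ⟨x, hx⟩ else g ⟨x, hx⟩) ?_ ?_ ?_ ?_
    · intro f hf
      rw [mem_coe, mem_filter, mem_om_pb h1 h2 h3] at hf
      obtain ⟨⟨hf1, hf2⟩, rfl⟩ := hf
      rw [mem_coe, Fintype.mem_piFinset]
      exact fun z => hf2 z.1 z.2
    · intro h hh
      rw [mem_coe, Fintype.mem_piFinset] at hh
      have e2 : (fun x : {x // x ∉ Z} => (fun x : Fin n => if hx : x ∈ Z then h ⟨x, hx⟩ else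
          g ⟨x, hx⟩) x.1) = g := by
        funext x
        exact dif_neg x.2
      rw [mem_coe, mem_filter, mem_om_pb h1 h2 h3, e2]
      refine ⟨⟨hg, fun z hz => ?_⟩, rfl⟩
      show (if hx : z ∈ Z then h ⟨z, hx⟩ else g ⟨z, hx⟩) ∈ win r Z g (φ z)
      rw [dif_pos hz]
      exact hh ⟨z, hz⟩
    · intro f hf
      rw [mem_coe, mem_filter] at hf
      obtain ⟨_, rfl⟩ := hf
      funext x
      by_cases hx : x ∈ Z
      · exact dif_pos hx
      · exact dif_neg hx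
    · intro h _
      funext z
      exact dif_pos z.2
  · intro f hf
    exact ((mem_om_pb h1 h2 h3).1 hf).1

/-- `b` and `b'` are inverse bijections between the disjoint sets `X` and `Y` -/
structure Sw (X Y : Finset (Fin n)) (b b' : Fin n → Fin n) : Prop where
  disj : Disjoint X Y
  h1 : ∀ x ∈ X, b x ∈ Y
  h2 : ∀ y ∈ Y, b' y ∈ X
  h3 : ∀ x ∈ X, b' (b x) = x
  h4 : ∀ y ∈ Y, b (b' y) = y

theorem Sw.symm {X Y : Finset (Fin n)} {b b' : Fin n → Fin n} (h : Sw X Y b b') : Sw Y X b' b :=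
  ⟨h.disj.symm, h.h2, h.h1, h.h4, h.h3⟩

/-- the map that moves `X` by `b` -/
noncomputable def ph (X : Finset (Fin n)) (b : Fin n → Fin n) (a : Fin n) : Fin n :=
  if a ∈ X then b a else a

theorem ph_in {X : Finset (Fin n)} {b : Fin n → Fin n} {a : Fin n} (h : a ∈ X) : ph X b a = b a :=
  if_pos h

theorem ph_out {X : Finset (Fin n)} {b : Fin n → Fin n} {a : Fin n} (h : a ∉ X) : ph X b a = a :=
  if_neg h

theorem Sw.prod {X Y : Finset (Fin n)} {b b' : Fin n → Fin n} (h : Sw X Y b b')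
    (W : Fin n → ℕ) : ∏ z ∈ X ∪ Y, W (ph X b z) = (∏ y ∈ Y, W y) ^ 2 := by
  rw [prod_union h.disj, sq]
  congr 1
  · refine prod_nbij' b b' h.h1 h.h2 h.h3 h.h4 fun x hx => ?_
    rw [ph_in hx]
  · refine prod_congr rfl fun y hy => ?_
    rw [ph_out fun hx => (disjoint_left.1 h.disj) hx hy]

theorem Sw.sum {X Y : Finset (Fin n)} {b b' : Fin n → Fin n} (h : Sw X Y b b') {M : Type*}
    [AddCommMonoid M] (W : Fin n → M) : ∑ x ∈ X, W (b x) = ∑ y ∈ Y, W y :=
  sum_nbij' b b' h.h1 h.h2 h.h3 h.h4 fun _ _ => rfl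

theorem Sw.card {X Y : Finset (Fin n)} {b b' : Fin n → Fin n} (h : Sw X Y b b') : X.card = Y.card :=
  card_nbij' b b' h.h1 h.h2 h.h3 h.h4

/-- a set is loose if any two related points of it are separated by a point off it -/
def Loose (r : Fin n → Fin n → Prop) (Z : Finset (Fin n)) : Prop :=
  ∀ x ∈ Z, ∀ y ∈ Z, r x y → ∃ w, w ∉ Z ∧ r x w ∧ r w y

theorem card_om_ph {r : Fin n → Fin n → Prop} {X Y : Finset (Fin n)} {b b' : Fin n → Fin n}
    (h : Sw X Y b b') (hl : Loose r (X ∪ Y)) (N : ℕ) :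
    (om (pb r (ph X b)) N).card =
      ∑ g ∈ off r (X ∪ Y) N, (∏ y ∈ Y, (win r (X ∪ Y) g y).card) ^ 2 := by
  rw [card_om_pb (Z := X ∪ Y) ?_ ?_ hl]
  · exact sum_congr rfl fun g _ => h.prod fun y => (win r (X ∪ Y) g y).card
  · intro x hx
    rw [mem_union, not_or] at hx
    exact ph_out hx.1
  · intro x hx
    rw [mem_union] at hx ⊢
    by_cases hxX : x ∈ X
    · rw [ph_in hxX]
      exact Or.inr (h.h1 x hxX)
    · rw [ph_out hxX]
      exact hx

theorem card_om {r : Fin n → Fin n → Prop} {X Y : Finset (Fin n)} {b b' : Fin n → Fin n}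
    (h : Sw X Y b b') (hl : Loose r (X ∪ Y)) (N : ℕ) :
    (om r N).card = ∑ g ∈ off r (X ∪ Y) N,
      (∏ y ∈ Y, (win r (X ∪ Y) g y).card) * ∏ x ∈ X, (win r (X ∪ Y) g x).card := by
  have e1 : pb r (fun x => x) = r := rfl
  have e2 := card_om_pb (r := r) (Z := X ∪ Y) (φ := fun x => x) (fun _ _ => rfl)
    (fun _ hx => hx) hl N
  rw [e1] at e2
  rw [e2]
  refine sum_congr rfl fun g _ => ?_
  rw [prod_union h.disj, mul_comm]

/-- the Cauchy-Schwarz step -/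
theorem log_convex (hn : 1 ≤ n) {r : Fin n → Fin n → Prop} {X Y : Finset (Fin n)}
    {b b' : Fin n → Fin n} (h : Sw X Y b b') (hl : Loose r (X ∪ Y)) :
    (le r).card ^ 2 ≤ (le (pb r (ph X b))).card * (le (pb r (ph Y b'))).card := by
  refine le_of_om hn fun N => ?_
  have hl' : Loose r (Y ∪ X) := by
    rw [union_comm]
    exact hl
  rw [card_om_ph h hl, card_om_ph h.symm hl', union_comm Y X, card_om h hl]
  exact sum_mul_sq_le_sq_mul_sq _ _ _

end Pool.Agent.FTP
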