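import Pool.Agent.FTP.T2

/-!
# Few twin classes: the exchange identities
-/

set_option autoImplicit false

namespace Pool.Agent.FTP

open Finset Pool.Agent.MP_f1b527_co
open scoped Classical

variable {n : ℕ}

/-- the difference of the sums over `Y` and over `X` -/
def DD (X Y : Finset (Fin n)) (F : Fin n → ℤ) : ℤ := ∑ y ∈ Y, F y - ∑ x ∈ X, F x

theorem DD_swap (X Y : Finset (Fin n)) (F : Fin n → ℤ) : DD Y X F = - DD X Y F := by
  unfold DD
  ring

theorem DD_neg (X Y : Finset (Fin n)) (F : Fin n → ℤ) : DD X Y (fun a => - F a) = - DD X Y F := by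
  unfold DD
  rw [sum_neg_distrib, sum_neg_distrib]
  ring

theorem DD_add (X Y : Finset (Fin n)) (F G : Fin n → ℤ) :
    DD X Y (fun a => F a + G a) = DD X Y F + DD X Y G := by
  unfold DD
  rw [sum_add_distrib, sum_add_distrib]
  ring

theorem sum_DD (X Y : Finset (Fin n)) (F : Fin n → Fin n → ℤ) :
    ∑ a, DD X Y (F a) = DD X Y fun c => ∑ a, F a c := by
  unfold DD
  rw [sum_sub_distrib, sum_comm, sum_comm (s := univ) (t := X)]

theorem Sw.sum_ph {X Y : Finset (Fin n)} {b b' : Fin n → Fin n} (h : Sw X Y b b')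
    (F : Fin n → ℤ) : ∑ a, F (ph X b a) = ∑ a, F a + DD X Y F := by
  have e1 : ∑ a, (F (ph X b a) - F a) = ∑ a ∈ X, (F (ph X b a) - F a) := by
    symm
    refine sum_subset (subset_univ X) fun a _ ha => ?_
    rw [ph_out ha, sub_self]
  have e2 : ∑ a ∈ X, (F (ph X b a) - F a) = DD X Y F := by
    unfold DD
    rw [sum_sub_distrib, ← h.sum F]
    congr 1
    exact sum_congr rfl fun x hx => by rw [ph_in hx]
  rw [sum_sub_distrib] at e1
  linarith

theorem Sw.sum_ph_ph {X Y : Finset (Fin n)} {b b' : Fin n → Fin n} (h : Sw X Y b b')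
    (F : Fin n → Fin n → ℤ) : ∑ a, ∑ c, F (ph X b a) (ph X b c) =
      ∑ a, ∑ c, F a c + DD X Y (fun c => ∑ a, F c a + ∑ a, F a c) +
        DD X Y fun a => DD X Y (F a) := by
  have e1 : ∀ a, ∑ c, F (ph X b a) (ph X b c) = ∑ c, F (ph X b a) c + DD X Y (F (ph X b a)) :=
    fun a => h.sum_ph _
  rw [sum_congr rfl fun a _ => e1 a, sum_add_distrib, h.sum_ph (fun a => ∑ c, F a c),
    h.sum_ph (fun a => DD X Y (F a)), sum_DD, DD_add]
  ring

/-! ### the number of comparable pairs -/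

theorem cp_cast (s : Fin n → Fin n → Prop) :
    (cp s univ : ℤ) = ∑ a, ∑ c, (C s a c : ℤ) := by
  unfold cp
  push_cast
  rfl

theorem cp_pb {r : Fin n → Fin n → Prop} {X Y : Finset (Fin n)} {b b' : Fin n → Fin n}
    (h : Sw X Y b b') (hd : ∑ x ∈ X, (up r x + dn r x) = ∑ y ∈ Y, (up r y + dn r y))
    (lev : Fin n → ℕ) (hb : ∀ x ∈ X, lev (b x) = lev x)
    (hr : ∀ z ∈ X ∪ Y, ∀ z' ∈ X ∪ Y, r z z' ↔ lev z < lev z') :
    cp (pb r (ph X b)) univ = cp r univ := by
  have e1 : (cp (pb r (ph X b)) univ : ℤ) = cp r univ := by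
    rw [cp_cast, cp_cast]
    have e2 : ∑ a, ∑ c, (C (pb r (ph X b)) a c : ℤ) =
        ∑ a, ∑ c, (C r (ph X b a) (ph X b c) : ℤ) := by
      refine sum_congr rfl fun a _ => sum_congr rfl fun c _ => ?_
      rw [C_congr (s := pb r (ph X b)) (t := r) (c := ph X b a) (d := ph X b c) Iff.rfl]
    rw [e2, h.sum_ph_ph (fun a c => (C r a c : ℤ))]
    have e3 : DD X Y (fun c => ∑ a, (C r c a : ℤ) + ∑ a, (C r a c : ℤ)) = 0 := by
      unfold DD
      have e4 : ∀ c, (∑ a, (C r c a : ℤ) + ∑ a, (C r a c : ℤ)) = ((up r c + dn r c : ℕ) : ℤ) := by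
        intro c
        unfold up dn
        push_cast
        rfl
      rw [sum_congr rfl fun c _ => e4 c, sum_congr rfl fun c _ => e4 c, ← Nat.cast_sum,
        ← Nat.cast_sum, hd, sub_self]
    have e5 : ∀ z ∈ X ∪ Y, DD X Y (fun c => (C r z c : ℤ)) = 0 := by
      intro z hz
      have e6 : ∀ z' ∈ X ∪ Y, (C r z z' : ℤ) = if lev z < lev z' then 1 else 0 := by
        intro z' hz'
        unfold C
        by_cases hc : r z z'
        · rw [if_pos hc, if_pos ((hr z hz z' hz').1 hc)]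
          rfl
        · rw [if_neg hc, if_neg fun h2 => hc ((hr z hz z' hz').2 h2)]
          rfl
      unfold DD
      rw [sum_congr rfl fun y hy => e6 y (mem_union_right X hy),
        sum_congr rfl fun x hx => e6 x (mem_union_left Y hx),
        ← h.sum (fun y => if lev z < lev y then (1 : ℤ) else 0),
        sum_congr rfl fun x hx => by rw [hb x hx], sub_self]
    have e7 : DD X Y (fun a => DD X Y fun c => (C r a c : ℤ)) = 0 := by
      rw [DD, sum_eq_zero fun y hy => e5 y (mem_union_right X hy),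
        sum_eq_zero fun x hx => e5 x (mem_union_left Y hx), sub_self]
    rw [e3, e7]
    ring
  exact_mod_cast e1

/-! ### twins -/

/-- twins -/
def tw (r : Fin n → Fin n → Prop) (x y : Fin n) : Prop := ∀ z, (r x z ↔ r y z) ∧ (r z x ↔ r z y)

theorem tw_refl (r : Fin n → Fin n → Prop) (x : Fin n) : tw r x x := fun _ => ⟨Iff.rfl, Iff.rfl⟩

theorem tw_symm {r : Fin n → Fin n → Prop} {x y : Fin n} (h : tw r x y) : tw r y x :=
  fun z => ⟨(h z).1.symm, (h z).2.symm⟩

theorem tw_trans {r : Fin n → Fin n → Prop} {x y z : Fin n} (h : tw r x y) (h' : tw r y z) :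
    tw r x z :=
  fun w => ⟨(h w).1.trans (h' w).1, (h w).2.trans (h' w).2⟩

theorem tw_pb {r : Fin n → Fin n → Prop} {φ : Fin n → Fin n} {x y : Fin n}
    (h : tw r (φ x) (φ y)) : tw (pb r φ) x y :=
  fun z => ⟨(h (φ z)).1, (h (φ z)).2⟩

/-- the indicator of twins -/
noncomputable def ti (r : Fin n → Fin n → Prop) (x y : Fin n) : ℤ := if tw r x y then 1 else 0

theorem ti_nonneg (r : Fin n → Fin n → Prop) (x y : Fin n) : 0 ≤ ti r x y := by
  unfold ti
  split_ifs <;> simp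

/-- the number of twin pairs -/
noncomputable def tc (r : Fin n → Fin n → Prop) : ℕ :=
  (univ.filter fun p : Fin n × Fin n => tw r p.1 p.2).card

theorem tc_cast (r : Fin n → Fin n → Prop) : (tc r : ℤ) = ∑ a, ∑ c, ti r a c := by
  unfold tc ti
  rw [card_filter, ← univ_product_univ, sum_product]
  push_cast
  rfl

theorem tc_le (r : Fin n → Fin n → Prop) : tc r ≤ n ^ 2 := by
  unfold tc
  refine (card_filter_le _ _).trans (le_of_eq ?_)
  rw [card_univ, Fintype.card_prod, Fintype.card_fin, sq]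

theorem tc_pb {r : Fin n → Fin n → Prop} {X Y : Finset (Fin n)} {b b' : Fin n → Fin n}
    (h : Sw X Y b b') : (tc r : ℤ) + DD X Y (fun c => ∑ a, ti r c a + ∑ a, ti r a c) +
        DD X Y (fun a => DD X Y (ti r a)) ≤ (tc (pb r (ph X b)) : ℤ) := by
  rw [tc_cast, tc_cast, ← h.sum_ph_ph (ti r)]
  refine sum_le_sum fun a _ => sum_le_sum fun c _ => ?_
  unfold ti
  by_cases hc : tw r (ph X b a) (ph X b c)
  · rw [if_pos hc, if_pos (tw_pb hc)]
  · rw [if_neg hc]
    split_ifs <;> simp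

theorem tc_two {r : Fin n → Fin n → Prop} {X Y : Finset (Fin n)} {b b' : Fin n → Fin n}
    (h : Sw X Y b b') (hX : X.Nonempty) (ht : ∀ x ∈ X, ∀ y ∈ Y, ¬ tw r x y) :
    2 * tc r < tc (pb r (ph X b)) + tc (pb r (ph Y b')) := by
  have h1 := tc_pb (r := r) h
  have h2 := tc_pb (r := r) h.symm
  have e1 : DD Y X (fun a => DD Y X (ti r a)) = DD X Y (fun a => DD X Y (ti r a)) := by
    rw [DD_swap X Y, ← DD_neg]
    congr 1
    funext a
    rw [DD_swap X Y, neg_neg]
  have e2 : DD Y X (fun c => ∑ a, ti r c a + ∑ a, ti r a c) =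
      - DD X Y (fun c => ∑ a, ti r c a + ∑ a, ti r a c) := DD_swap _ _ _
  rw [e1, e2] at h2
  have e3 : ∀ y ∈ Y, DD X Y (ti r y) = ∑ y' ∈ Y, ti r y y' := by
    intro y hy
    unfold DD
    rw [sum_eq_zero (s := X) (f := ti r y) ?_, sub_zero]
    intro x hx
    exact if_neg fun h3 => ht x hx y hy (tw_symm h3)
  have e4 : ∀ x ∈ X, DD X Y (ti r x) = - ∑ x' ∈ X, ti r x x' := by
    intro x hx
    unfold DD
    rw [sum_eq_zero (s := Y) (f := ti r x) ?_, zero_sub]
    intro y hy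
    exact if_neg fun h3 => ht x hx y hy h3
  have e5 : DD X Y (fun a => DD X Y (ti r a)) =
      ∑ y ∈ Y, ∑ y' ∈ Y, ti r y y' + ∑ x ∈ X, ∑ x' ∈ X, ti r x x' := by
    rw [DD, sum_congr rfl e3, sum_congr rfl e4, sum_neg_distrib]
    ring
  have h3 : 0 ≤ ∑ y ∈ Y, ∑ y' ∈ Y, ti r y y' :=
    sum_nonneg fun y _ => sum_nonneg fun y' _ => ti_nonneg r y y'
  have h4 : 0 < ∑ x ∈ X, ∑ x' ∈ X, ti r x x' := by
    refine sum_pos (fun x hx => ?_) hX
    have h5 : ti r x x = 1 := if_pos (tw_refl r x)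
    have h6 := single_le_sum (s := X) (f := fun x' => ti r x x') (fun x' _ => ti_nonneg r x x') hx
    have h7 : ti r x x ≤ ∑ x' ∈ X, ti r x x' := h6
    linarith
  have h8 : (2 * tc r : ℤ) < tc (pb r (ph X b)) + tc (pb r (ph Y b')) := by
    rw [e5] at h1 h2
    linarith
  exact_mod_cast h8

/-! ### the class of nested strict orders -/

/-- nested strict orders -/
structure Nst (r : Fin n → Fin n → Prop) : Prop where
  irr : ∀ x, ¬ r x x
  tr : ∀ a b c, r a b → r b c → r a c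
  nest : ∀ x y, tle r x y ∨ tle r y x

theorem Nst.pb {r : Fin n → Fin n → Prop} (h : Nst r) (φ : Fin n → Fin n) : Nst (pb r φ) where
  irr := fun x => h.irr (φ x)
  tr := fun a b c => h.tr (φ a) (φ b) (φ c)
  nest := fun x y => (h.nest (φ x) (φ y)).imp
    (fun h1 => ⟨fun z => h1.1 (φ z), fun z => h1.2 (φ z)⟩)
    (fun h1 => ⟨fun z => h1.1 (φ z), fun z => h1.2 (φ z)⟩)

end Pool.Agent.FTP
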