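import Pool.Agent.FTP.T3

/-!
# Few twin classes: the levels
-/

set_option autoImplicit false

namespace Pool.Agent.FTP

open Finset Pool.Agent.MP_f1b527_co
open scoped Classical

variable {n : ℕ}

/-- `lev` is the height function of `r` -/
structure Lev (r : Fin n → Fin n → Prop) (lev : Fin n → ℕ) : Prop where
  lt : ∀ x y, r x y → lev x < lev y
  ex : ∀ x, 0 < lev x → ∃ y, r y x ∧ lev y + 1 = lev x

theorem exists_lev {r : Fin n → Fin n → Prop} (hr : Nst r) : ∃ lev : Fin n → ℕ, Lev r lev := by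
  have h0 : ∃ m : ℕ, ∃ lev : Fin n → ℕ, (∀ x y, r x y → lev x < lev y) ∧ ∑ x, lev x = m := by
    refine ⟨_, fun x => (univ.filter fun z => r z x).card, ?_, rfl⟩
    intro x y hxy
    refine card_lt_card ⟨fun z hz => ?_, fun hs => ?_⟩
    · rw [mem_filter] at hz ⊢
      exact ⟨mem_univ _, hr.tr z x y hz.2 hxy⟩
    · have h1 := hs (mem_filter.2 ⟨mem_univ x, hxy⟩)
      exact hr.irr x (mem_filter.1 h1).2
  obtain ⟨lev, h1, h2⟩ := Nat.find_spec h0
  refine ⟨lev, h1, fun x hx => ?_⟩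
  by_contra hcon
  push Not at hcon
  have h3 : ∑ z, Function.update lev x (lev x - 1) z < Nat.find h0 := by
    rw [← h2]
    refine sum_lt_sum (fun z _ => ?_) ⟨x, mem_univ x, ?_⟩
    · by_cases hz : z = x
      · rw [hz, Function.update_self]
        omega
      · rw [Function.update_of_ne hz]
    · rw [Function.update_self]
      omega
  refine Nat.find_min h0 h3 ⟨_, ?_, rfl⟩
  intro a c hac
  have hne : a ≠ c := by
    rintro rfl
    exact hr.irr a hac
  have h4 := h1 a c hac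
  by_cases ha : a = x
  · have hc : c ≠ x := fun h => hne (ha.trans h.symm)
    rw [ha, Function.update_self, Function.update_of_ne hc]
    rw [ha] at h4
    omega
  · rw [Function.update_of_ne ha]
    by_cases hc : c = x
    · rw [hc, Function.update_self]
      rw [hc] at h4
      have h5 := hcon a (hc ▸ hac)
      omega
    · rw [Function.update_of_ne hc]
      exact h4

theorem Lev.mono {r : Fin n → Fin n → Prop} {lev : Fin n → ℕ} (h : Lev r lev) {x y : Fin n}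
    (hxy : ∀ z, r z x → r z y) : lev x ≤ lev y := by
  rcases Nat.eq_zero_or_pos (lev x) with h0 | h0
  · omega
  · obtain ⟨z, hz, hz1⟩ := h.ex x h0
    have := h.lt z y (hxy z hz)
    omega

theorem Lev.tw {r : Fin n → Fin n → Prop} {lev : Fin n → ℕ} (h : Lev r lev) {x y : Fin n}
    (hxy : tw r x y) : lev x = lev y :=
  le_antisymm (h.mono fun z => (hxy z).2.1) (h.mono fun z => (hxy z).2.2)

theorem Lev.far {r : Fin n → Fin n → Prop} {lev : Fin n → ℕ} (h : Lev r lev) (hr : Nst r)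
    {x y z : Fin n} (hyz : r y z) (hxy : lev x < lev y) : r x z := by
  rcases hr.nest x y with h1 | h1
  · exact h1.2 z hyz
  · have := h.mono h1.1
    omega

theorem Lev.two {r : Fin n → Fin n → Prop} {lev : Fin n → ℕ} (h : Lev r lev) (hr : Nst r)
    {x y : Fin n} (hxy : lev x + 2 ≤ lev y) : r x y := by
  obtain ⟨z, hz, hz1⟩ := h.ex y (by omega)
  exact h.far hr hz (by omega)

theorem Lev.three {r : Fin n → Fin n → Prop} {lev : Fin n → ℕ} (h : Lev r lev) (hr : Nst r)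
    {x y : Fin n} (hxy : lev x + 3 ≤ lev y) : ∃ w, lev w + 1 = lev y ∧ r x w ∧ r w y := by
  obtain ⟨z, hz, hz1⟩ := h.ex y (by omega)
  exact ⟨z, hz1, h.two hr (by omega), hz⟩

/-- the levels of the points of `Z` are equal or at distance at least three -/
def Sp (lev : Fin n → ℕ) (Z : Finset (Fin n)) : Prop :=
  ∀ z ∈ Z, ∀ z' ∈ Z, lev z < lev z' → lev z + 3 ≤ lev z'

theorem Lev.iff {r : Fin n → Fin n → Prop} {lev : Fin n → ℕ} (h : Lev r lev) (hr : Nst r)
    {Z : Finset (Fin n)} (hZ : Sp lev Z) :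
    ∀ z ∈ Z, ∀ z' ∈ Z, r z z' ↔ lev z < lev z' := by
  intro z hz z' hz'
  refine ⟨h.lt z z', fun h1 => h.two hr ?_⟩
  have h2 := hZ z hz z' hz' h1
  omega

theorem Lev.loose {r : Fin n → Fin n → Prop} {lev : Fin n → ℕ} (h : Lev r lev) (hr : Nst r)
    {Z : Finset (Fin n)} (hZ : Sp lev Z) : Loose r Z := by
  intro x hx y hy hxy
  have h1 := h.lt x y hxy
  have h2 := hZ x hx y hy h1
  obtain ⟨w, hw, hw1, hw2⟩ := h.three hr (x := x) (y := y) h2
  refine ⟨w, fun hwZ => ?_, hw1, hw2⟩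
  have h4 := hZ w hwZ y hy (by omega)
  omega

/-- level preserving bijections -/
theorem exists_sw {X Y : Finset (Fin n)} (hd : Disjoint X Y) (lev : Fin n → ℕ)
    (hc : ∀ i, (X.filter fun x => lev x = i).card = (Y.filter fun x => lev x = i).card) :
    ∃ b b' : Fin n → Fin n, Sw X Y b b' ∧ ∀ x ∈ X, lev (b x) = lev x := by
  have h1 : ∀ (S : Finset (Fin n)) (i : ℕ),
      Fintype.card {a : {x // x ∈ S} // lev a.1 = i} = (S.filter fun x => lev x = i).card := by
    intro S i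
    rw [Fintype.card_subtype]
    refine card_nbij (fun a => a.1) ?_ ?_ ?_
    · intro a ha
      exact mem_coe.2 (mem_filter.2 ⟨a.2, (mem_filter.1 (mem_coe.1 ha)).2⟩)
    · intro a _ c _ hac
      exact Subtype.ext hac
    · intro x hx
      have hx' := mem_filter.1 (mem_coe.1 hx)
      exact ⟨⟨x, hx'.1⟩, mem_coe.2 (mem_filter.2 ⟨mem_univ _, hx'.2⟩), rfl⟩
  have h2 : ∀ i, Nonempty ({a : {x // x ∈ X} // lev a.1 = i} ≃ {a : {x // x ∈ Y} // lev a.1 = i}) := by
    intro i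
    refine ⟨Fintype.equivOfCardEq ?_⟩
    rw [h1, h1]
    exact hc i
  let e : {x // x ∈ X} ≃ {x // x ∈ Y} :=
    Equiv.ofFiberEquiv (f := fun a : {x // x ∈ X} => lev a.1) (g := fun a : {x // x ∈ Y} => lev a.1)
      fun i => (h2 i).some
  have he : ∀ a, lev (e a).1 = lev a.1 := fun a =>
    Equiv.ofFiberEquiv_map (f := fun a : {x // x ∈ X} => lev a.1)
      (g := fun a : {x // x ∈ Y} => lev a.1) (fun i => (h2 i).some) a
  have g1 : ∀ x, ∀ hx : x ∈ X, (if hx : x ∈ X then (e ⟨x, hx⟩).1 else x) = (e ⟨x, hx⟩).1 :=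
    fun x hx => dif_pos hx
  have g2 : ∀ y, ∀ hy : y ∈ Y, (if hy : y ∈ Y then (e.symm ⟨y, hy⟩).1 else y) = (e.symm ⟨y, hy⟩).1 :=
    fun y hy => dif_pos hy
  refine ⟨fun x => if hx : x ∈ X then (e ⟨x, hx⟩).1 else x,
    fun y => if hy : y ∈ Y then (e.symm ⟨y, hy⟩).1 else y, ⟨hd, ?_, ?_, ?_, ?_⟩, ?_⟩
  · intro x hx
    show (if hx : x ∈ X then (e ⟨x, hx⟩).1 else x) ∈ Y
    rw [g1 x hx]
    exact (e ⟨x, hx⟩).2
  · intro y hy
    show (if hy : y ∈ Y then (e.symm ⟨y, hy⟩).1 else y) ∈ X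
    rw [g2 y hy]
    exact (e.symm ⟨y, hy⟩).2
  · intro x hx
    show (if hy : (if hx : x ∈ X then (e ⟨x, hx⟩).1 else x) ∈ Y then
      (e.symm ⟨_, hy⟩).1 else (if hx : x ∈ X then (e ⟨x, hx⟩).1 else x)) = x
    have h3 : (if hx : x ∈ X then (e ⟨x, hx⟩).1 else x) ∈ Y := by
      rw [g1 x hx]
      exact (e ⟨x, hx⟩).2
    rw [dif_pos h3]
    have h4 : (⟨_, h3⟩ : {y // y ∈ Y}) = e ⟨x, hx⟩ := Subtype.ext (g1 x hx)
    rw [h4, Equiv.symm_apply_apply]
  · intro y hy
    show (if hx : (if hy : y ∈ Y then (e.symm ⟨y, hy⟩).1 else y) ∈ X then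
      (e ⟨_, hx⟩).1 else (if hy : y ∈ Y then (e.symm ⟨y, hy⟩).1 else y)) = y
    have h3 : (if hy : y ∈ Y then (e.symm ⟨y, hy⟩).1 else y) ∈ X := by
      rw [g2 y hy]
      exact (e.symm ⟨y, hy⟩).2
    rw [dif_pos h3]
    have h4 : (⟨_, h3⟩ : {x // x ∈ X}) = e.symm ⟨y, hy⟩ := Subtype.ext (g2 y hy)
    rw [h4, Equiv.apply_symm_apply]
  · intro x hx
    show lev (if hx : x ∈ X then (e ⟨x, hx⟩).1 else x) = lev x
    rw [g1 x hx]
    exact he _

end Pool.Agent.FTP
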