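import Pool.Agent.FTP.T4

/-!
# Few twin classes: the extremal relation and the pigeonhole principle
-/

set_option autoImplicit false

namespace Pool.Agent.FTP

open Finset Pool.Agent.MP_f1b527_co
open scoped Classical

variable {n : ℕ}

/-- an extremal relation with the largest number of twin pairs -/
structure Best (k : ℕ) (r : Fin n → Fin n → Prop) : Prop where
  nst : Nst r
  cpk : cp r univ = k
  max : ∀ s : Fin n → Fin n → Prop, Nst s → cp s univ = k →
    (le s).card * (n ^ 2 + 1) + tc s ≤ (le r).card * (n ^ 2 + 1) + tc r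

theorem exists_best (hn : 1 ≤ n) {k : ℕ} (hk : k ≤ n.choose 2) :
    ∃ r : Fin n → Fin n → Prop, Best k r := by
  obtain ⟨r0, a1, a2, a3, -⟩ := exists_order (b := n) (c := 0) (n := n) (j := 0) hn (Nat.zero_le _)
    hn (Or.inl rfl)
  rw [mm_self_zero] at a3
  obtain ⟨r1, b1, b2, b3, -⟩ := remove_many r0 a1 a2 (k := k) (by omega)
  obtain ⟨r2, c1, c2, c3, c4, -⟩ := exists_total r1 b1 b2
  let T := {s : Fin n → Fin n → Prop // Nst s ∧ cp s univ = k}
  have : Nonempty T := ⟨⟨r2, ⟨c1, c2, c3⟩, c4.trans b3⟩⟩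
  obtain ⟨⟨s, s1, s2⟩, hmax⟩ :=
    Finite.exists_max (fun t : T => (le t.1).card * (n ^ 2 + 1) + tc t.1)
  exact ⟨s, s1, s2, fun t h1 h2 => hmax ⟨t, h1, h2⟩⟩

theorem Best.le_card {k : ℕ} {r s : Fin n → Fin n → Prop} (h : Best k r) (hs : Nst s)
    (hk : cp s univ = k) : (le s).card ≤ (le r).card := by
  have h1 := h.max s hs hk
  have h2 := tc_le r
  by_contra hcon
  push Not at hcon
  have h3 : ((le r).card + 1) * (n ^ 2 + 1) ≤ (le s).card * (n ^ 2 + 1) :=
    Nat.mul_le_mul_right _ hcon
  have h4 : ((le r).card + 1) * (n ^ 2 + 1) = (le r).card * (n ^ 2 + 1) + (n ^ 2 + 1) := by ring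
  omega

/-- no exchange is possible in an extremal relation with the largest number of twin pairs -/
theorem Best.no_swap (hn : 1 ≤ n) {k : ℕ} {r : Fin n → Fin n → Prop} (h : Best k r)
    {lev : Fin n → ℕ} (hl : Lev r lev) {X Y : Finset (Fin n)}
    (hZ : Sp lev (X ∪ Y)) (hd : Disjoint X Y)
    (hc : ∀ i, (X.filter fun x => lev x = i).card = (Y.filter fun x => lev x = i).card)
    (hq : ∑ x ∈ X, (up r x + dn r x) = ∑ y ∈ Y, (up r y + dn r y)) (hX : X.Nonempty) :
    ∃ x ∈ X, ∃ y ∈ Y, tw r x y := by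
  by_contra hcon
  push Not at hcon
  obtain ⟨b, b', hsw, hb⟩ := exists_sw hd lev hc
  have hb' : ∀ y ∈ Y, lev (b' y) = lev y := fun y hy => by
    rw [← hb _ (hsw.h2 y hy), hsw.h4 y hy]
  have hi := hl.iff h.nst hZ
  have hi' : ∀ z ∈ Y ∪ X, ∀ z' ∈ Y ∪ X, r z z' ↔ lev z < lev z' := by
    rw [union_comm]
    exact hi
  have h1 := cp_pb hsw hq lev hb hi
  have h2 := cp_pb hsw.symm hq.symm lev hb' hi'
  have h3 := log_convex hn hsw (hl.loose h.nst hZ)
  have h4 := tc_two hsw hX hcon
  have n1 := h.nst.pb (ph X b)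
  have n2 := h.nst.pb (ph Y b')
  have c1 := h1.trans h.cpk
  have c2 := h2.trans h.cpk
  have l1 := h.le_card n1 c1
  have l2 := h.le_card n2 c2
  have m1 := h.max _ n1 c1
  have m2 := h.max _ n2 c2
  set e := (le r).card with he
  set e1 := (le (pb r (ph X b))).card with he1
  set e2 := (le (pb r (ph Y b'))).card with he2
  have k1 : e1 = e := by
    by_contra hne
    have hlt : e1 < e := lt_of_le_of_ne l1 hne
    have : e1 * e2 < e ^ 2 := by
      rw [sq]
      exact Nat.mul_lt_mul_of_lt_of_le hlt l2 (by omega)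
    omega
  have k2 : e2 = e := by
    by_contra hne
    have hlt : e2 < e := lt_of_le_of_ne l2 hne
    have : e1 * e2 < e ^ 2 := by
      rw [sq]
      exact Nat.mul_lt_mul_of_le_of_lt l1 hlt (by omega)
    omega
  rw [k1] at m1
  rw [k2] at m2
  omega

theorem sdiff_level (A B : Finset (Fin n)) (lev : Fin n → ℕ) (i : ℕ) :
    ((A \ B).filter fun x => lev x = i).card + ((A ∩ B).filter fun x => lev x = i).card =
      (A.filter fun x => lev x = i).card := by
  rw [← card_union_of_disjoint, ← filter_union, sdiff_union_inter]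
  exact disjoint_filter_filter (disjoint_sdiff_inter A B)

theorem sdiff_sum (A B : Finset (Fin n)) (f : Fin n → ℕ) :
    ∑ x ∈ A \ B, f x + ∑ x ∈ A ∩ B, f x = ∑ x ∈ A, f x := by
  rw [← sum_union (disjoint_sdiff_inter A B), sdiff_union_inter]

theorem q_deg {r : Fin n → Fin n → Prop} (hr : Nst r) (x : Fin n) :
    q r univ x + (up r x + dn r x) + 1 = n := by
  have h := q_split r hr.irr (fun a c h1 h2 => hr.irr a (hr.tr a c a h1 h2)) (mem_univ x)
  rw [card_univ, Fintype.card_fin] at h
  unfold up dn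
  omega

theorem sum_deg {r : Fin n → Fin n → Prop} (hr : Nst r) (X : Finset (Fin n)) :
    ∑ x ∈ X, q r univ x + ∑ x ∈ X, (up r x + dn r x) + X.card = X.card * n := by
  have h : ∑ x ∈ X, (q r univ x + (up r x + dn r x) + 1) = ∑ _x ∈ X, n :=
    sum_congr rfl fun x _ => q_deg hr x
  rw [sum_add_distrib, sum_add_distrib, sum_const, sum_const] at h
  simpa using h

/-- two sets with the same numbers of points on the levels and the same degree sum agree -/
theorem Best.coll (hn : 1 ≤ n) {k : ℕ} {r : Fin n → Fin n → Prop} (h : Best k r)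
    {lev : Fin n → ℕ} (hl : Lev r lev) {S S' : Finset (Fin n)} (hZ : Sp lev (S ∪ S'))
    (e3 : ∀ i, (S.filter fun x => lev x = i).card = (S'.filter fun x => lev x = i).card)
    (e2 : ∑ x ∈ S, q r univ x = ∑ x ∈ S', q r univ x)
    (ht : ∀ x ∈ S \ S', ∀ y ∈ S' \ S, ¬ tw r x y) : S = S' := by
  by_contra hS
  have hc : ∀ i, ((S \ S').filter fun x => lev x = i).card =
      ((S' \ S).filter fun x => lev x = i).card := by
    intro i
    have h1 := sdiff_level S S' lev i
    have h2 := sdiff_level S' S lev i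
    have h3 := e3 i
    rw [inter_comm] at h2
    omega
  have hd : Disjoint (S \ S') (S' \ S) := disjoint_sdiff_sdiff
  obtain ⟨b, b', hsw, -⟩ := exists_sw hd lev hc
  have hcard := hsw.card
  have hq0 : ∑ x ∈ S \ S', q r univ x = ∑ x ∈ S' \ S, q r univ x := by
    have h1 := sdiff_sum S S' (q r univ)
    have h2 := sdiff_sum S' S (q r univ)
    rw [inter_comm] at h2
    omega
  have hq : ∑ x ∈ S \ S', (up r x + dn r x) = ∑ x ∈ S' \ S, (up r x + dn r x) := by
    have h1 := sum_deg h.nst (S \ S')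
    have h2 := sum_deg h.nst (S' \ S)
    rw [← hcard] at h2
    omega
  have hX : (S \ S').Nonempty := by
    rw [nonempty_iff_ne_empty]
    intro h1
    have h2 : S' \ S = ∅ := by
      rw [← card_eq_zero, ← hcard, h1, card_empty]
    exact hS (Subset.antisymm (sdiff_eq_empty_iff_subset.1 h1) (sdiff_eq_empty_iff_subset.1 h2))
  have hZ' : Sp lev ((S \ S') ∪ (S' \ S)) := by
    have hsub : (S \ S') ∪ (S' \ S) ⊆ S ∪ S' := union_subset_union sdiff_subset sdiff_subset
    exact fun z hz z' hz' => hZ z (hsub hz) z' (hsub hz')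
  obtain ⟨x, hx, y, hy, hxy⟩ := h.no_swap hn hl hZ' hd hc hq hX
  exact ht x hx y hy hxy

/-! ### twin classes -/

/-- the twin class of a point -/
noncomputable def cls (r : Fin n → Fin n → Prop) (x : Fin n) : Finset (Fin n) :=
  univ.filter fun y => tw r x y

theorem mem_cls {r : Fin n → Fin n → Prop} {x y : Fin n} : y ∈ cls r x ↔ tw r x y := by
  unfold cls
  rw [mem_filter]
  exact ⟨fun h => h.2, fun h => ⟨mem_univ _, h⟩⟩

theorem cls_eq {r : Fin n → Fin n → Prop} {x y : Fin n} (h : tw r x y) : cls r x = cls r y := by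
  ext z
  rw [mem_cls, mem_cls]
  exact ⟨fun h1 => tw_trans (tw_symm h) h1, fun h1 => tw_trans h h1⟩

theorem cls_eq_iff {r : Fin n → Fin n → Prop} {x y : Fin n} : cls r x = cls r y ↔ tw r x y := by
  refine ⟨fun h => ?_, cls_eq⟩
  rw [← mem_cls, h, mem_cls]
  exact tw_refl r y

/-- the twin classes -/
noncomputable def cl (r : Fin n → Fin n → Prop) : Finset (Finset (Fin n)) := univ.image (cls r)

theorem mem_cl {r : Fin n → Fin n → Prop} {K : Finset (Fin n)} :
    K ∈ cl r ↔ ∃ x, cls r x = K := by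
  unfold cl
  rw [mem_image]
  exact ⟨fun ⟨x, _, h⟩ => ⟨x, h⟩, fun ⟨x, h⟩ => ⟨x, mem_univ _, h⟩⟩

/-- the level of a class -/
def lc (lev : Fin n → ℕ) (K : Finset (Fin n)) : ℕ := K.sup lev

theorem lc_cls {r : Fin n → Fin n → Prop} {lev : Fin n → ℕ} (hl : Lev r lev) (x : Fin n) :
    lc lev (cls r x) = lev x := by
  unfold lc
  refine le_antisymm (Finset.sup_le fun y hy => ?_) (le_sup (f := lev) (mem_cls.2 (tw_refl r x)))
  exact (hl.tw (mem_cls.1 hy)).ge

/-- the rank of a point in its class -/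
noncomputable def rk (r : Fin n → Fin n → Prop) (x : Fin n) : ℕ := ((cls r x).filter (· < x)).card

theorem rank_surj (K : Finset (Fin n)) {j : ℕ} (hj : j < K.card) :
    ∃ x ∈ K, (K.filter (· < x)).card = j := by
  have h1 : Set.SurjOn (fun x => (K.filter (· < x)).card) (K : Set (Fin n)) (range K.card) := by
    refine surjOn_of_injOn_of_card_le _ ?_ ?_ (by rw [card_range])
    · intro x hx
      rw [mem_coe, mem_range]
      refine card_lt_card ⟨filter_subset _ _, fun hs => ?_⟩
      exact lt_irrefl x (mem_filter.1 (hs (mem_coe.1 hx))).2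
    · have key : ∀ x ∈ K, ∀ y ∈ K, x < y → (K.filter (· < x)).card < (K.filter (· < y)).card := by
        intro x hx y _ hxy
        refine card_lt_card ⟨fun z hz => ?_, fun hs => ?_⟩
        · rw [mem_filter] at hz ⊢
          exact ⟨hz.1, hz.2.trans hxy⟩
        · have := hs (mem_filter.2 ⟨hx, hxy⟩)
          exact lt_irrefl x (mem_filter.1 this).2
      intro x hx y hy hxy
      rcases lt_trichotomy x y with h | h | h
      · exact absurd hxy (key x hx y hy h).ne
      · exact h
      · exact absurd hxy (key y hy x hx h).ne'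
  obtain ⟨x, hx, hx2⟩ := h1 (mem_coe.2 (mem_range.2 hj))
  exact ⟨x, hx, hx2⟩

/-- the set with `u K` points in each class `K` -/
noncomputable def SS (r : Fin n → Fin n → Prop) (u : Finset (Fin n) → ℕ) : Finset (Fin n) :=
  univ.filter fun x => rk r x < u (cls r x)

theorem mem_SS {r : Fin n → Fin n → Prop} {u : Finset (Fin n) → ℕ} {x : Fin n} :
    x ∈ SS r u ↔ rk r x < u (cls r x) := by
  unfold SS
  rw [mem_filter]
  exact ⟨fun h => h.2, fun h => ⟨mem_univ _, h⟩⟩

/-- the choices of numbers of points in the classes on the levels congruent to `c` -/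
noncomputable def UU (r : Fin n → Fin n → Prop) (lev : Fin n → ℕ) (c : ℕ) :
    Finset (Finset (Fin n) → ℕ) :=
  Fintype.piFinset fun K => range (if K ∈ (cl r).filter (fun K => lc lev K % 3 = c) then
    K.card + 1 else 1)

theorem card_UU (r : Fin n → Fin n → Prop) (lev : Fin n → ℕ) (c : ℕ) :
    (UU r lev c).card = ∏ K ∈ (cl r).filter (fun K => lc lev K % 3 = c), (K.card + 1) := by
  unfold UU
  rw [Fintype.card_piFinset]
  simp only [card_range]
  rw [prod_ite_mem, univ_inter]

theorem UU_sub {r : Fin n → Fin n → Prop} {lev : Fin n → ℕ} (hl : Lev r lev) {c : ℕ}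
    {u : Finset (Fin n) → ℕ} (hu : u ∈ UU r lev c) {x : Fin n} (hx : x ∈ SS r u) :
    lev x % 3 = c := by
  unfold UU at hu
  rw [Fintype.mem_piFinset] at hu
  have h1 := mem_range.1 (hu (cls r x))
  have h2 := mem_SS.1 hx
  by_contra hcon
  rw [if_neg] at h1
  · omega
  · rw [mem_filter, lc_cls hl]
    exact fun h => hcon h.2

theorem UU_inj {r : Fin n → Fin n → Prop} {lev : Fin n → ℕ} {c : ℕ}
    {u v : Finset (Fin n) → ℕ} (hu : u ∈ UU r lev c) (hv : v ∈ UU r lev c)
    (h : SS r u = SS r v) : u = v := by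
  have key : ∀ u v : Finset (Fin n) → ℕ, v ∈ UU r lev c → SS r u = SS r v → ∀ K, v K ≤ u K := by
    intro u v hv h K
    by_contra hcon
    push Not at hcon
    unfold UU at hv
    rw [Fintype.mem_piFinset] at hv
    have h1 := mem_range.1 (hv K)
    by_cases hK : K ∈ (cl r).filter (fun K => lc lev K % 3 = c)
    · rw [if_pos hK] at h1
      obtain ⟨x, hx⟩ := mem_cl.1 (mem_filter.1 hK).1
      obtain ⟨y, hy, hy2⟩ := rank_surj K (j := u K) (by omega)
      have e1 : cls r y = K := by
        rw [← hx] at hy ⊢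
        exact (cls_eq (mem_cls.1 hy)).symm
      have e2 : rk r y = u K := by
        unfold rk
        rw [e1]
        exact hy2
      have h2 : y ∈ SS r v := by
        rw [mem_SS, e1, e2]
        exact hcon
      rw [← h, mem_SS, e1, e2] at h2
      exact lt_irrefl _ h2
    · rw [if_neg hK] at h1
      omega
  funext K
  exact le_antisymm (key v u hu h.symm K) (key u v hv h K)

end Pool.Agent.FTP
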