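import Pool.Agent.FTP.T5

/-!
# Few twin classes: the bound
-/

set_option autoImplicit false

namespace Pool.Agent.FTP

open Finset Pool.Agent.MP_f1b527_co
open scoped Classical

variable {n : ℕ}

/-- the level `i` -/
noncomputable def LL (lev : Fin n → ℕ) (i : ℕ) : Finset (Fin n) := univ.filter fun x => lev x = i

theorem mem_LL {lev : Fin n → ℕ} {i : ℕ} {x : Fin n} : x ∈ LL lev i ↔ lev x = i := by
  unfold LL
  rw [mem_filter]
  exact ⟨fun h => h.2, fun h => ⟨mem_univ _, h⟩⟩

/-- the pigeonhole principle for the levels congruent to `c` -/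
theorem bound_c (hn : 1 ≤ n) {k : ℕ} {r : Fin n → Fin n → Prop} (h : Best k r)
    {lev : Fin n → ℕ} (hl : Lev r lev) {H : ℕ} (hH : ∀ x, lev x < H) (c : ℕ) :
    ∏ K ∈ (cl r).filter (fun K => lc lev K % 3 = c), (K.card + 1) ≤
      (∏ i ∈ range H, if i % 3 = c then (LL lev i).card + 1 else 1) * (M2 r univ + 1) := by
  set T : Finset ((Fin H → ℕ) × ℕ) := (Fintype.piFinset fun i : Fin H =>
    range (if (i : ℕ) % 3 = c then (LL lev i).card + 1 else 1)) ×ˢ range (M2 r univ + 1) with hT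
  have hTc : T.card = (∏ i ∈ range H, if i % 3 = c then (LL lev i).card + 1 else 1) *
      (M2 r univ + 1) := by
    rw [hT, card_product, Fintype.card_piFinset, card_range]
    congr 1
    rw [← Fin.prod_univ_eq_prod_range (fun i => if i % 3 = c then (LL lev i).card + 1 else 1) H]
    exact prod_congr rfl fun i _ => card_range _
  rw [← hTc, ← card_UU]
  refine card_le_card_of_injOn (fun u => (fun i => ((SS r u).filter fun x => lev x = i).card,
    ∑ x ∈ SS r u, q r univ x)) ?_ ?_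
  · intro u hu
    rw [mem_coe] at hu ⊢
    rw [hT, mem_product, Fintype.mem_piFinset]
    refine ⟨fun i => ?_, ?_⟩
    · rw [mem_range]
      split_ifs with hi
      · have h1 : ((SS r u).filter fun x => lev x = (i : ℕ)).card ≤ (LL lev i).card :=
          card_le_card fun x hx => mem_LL.2 (mem_filter.1 hx).2
        exact Nat.lt_succ_of_le h1
      · rw [Nat.lt_one_iff, card_eq_zero, filter_eq_empty_iff]
        intro x hx hxi
        have h1 := UU_sub hl hu hx
        rw [hxi] at h1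
        exact hi h1
    · have h1 : ∑ x ∈ SS r u, q r univ x ≤ M2 r univ :=
        sum_le_sum_of_subset (subset_univ (SS r u))
      rw [mem_range]
      exact Nat.lt_succ_of_le h1
  · intro u hu v hv huv
    rw [mem_coe] at hu hv
    by_contra hne
    have hS : SS r u ≠ SS r v := fun h1 => hne (UU_inj hu hv h1)
    have e1 : ∀ i : Fin H, ((SS r u).filter fun x => lev x = i).card =
        ((SS r v).filter fun x => lev x = i).card := fun i => congrFun (congrArg Prod.fst huv) i
    have e2 : ∑ x ∈ SS r u, q r univ x = ∑ x ∈ SS r v, q r univ x := congrArg Prod.snd huv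
    have e3 : ∀ i : ℕ, ((SS r u).filter fun x => lev x = i).card =
        ((SS r v).filter fun x => lev x = i).card := by
      intro i
      by_cases hi : i < H
      · exact e1 ⟨i, hi⟩
      · have h1 : ∀ S : Finset (Fin n), S.filter (fun x => lev x = i) = ∅ := fun S =>
          filter_eq_empty_iff.2 fun x _ hx => hi (hx ▸ hH x)
        rw [h1, h1]
    have hZ : Sp lev (SS r u ∪ SS r v) := by
      have h1 : ∀ z ∈ SS r u ∪ SS r v, lev z % 3 = c := by
        intro z hz
        rcases mem_union.1 hz with hz | hz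
        · exact UU_sub hl hu hz
        · exact UU_sub hl hv hz
      intro z hz z' hz' hzz
      have h2 := h1 z hz
      have h3 := h1 z' hz'
      omega
    refine hS (h.coll hn hl hZ e3 e2 fun x hx y hy hxy => ?_)
    rw [mem_sdiff, mem_SS, mem_SS] at hx hy
    rw [cls_eq hxy] at hx
    omega

theorem bound_all (hn : 1 ≤ n) {k : ℕ} {r : Fin n → Fin n → Prop} (h : Best k r)
    {lev : Fin n → ℕ} (hl : Lev r lev) {H : ℕ} (hH : ∀ x, lev x < H) :
    ∏ K ∈ cl r, (K.card + 1) ≤
      (∏ i ∈ range H, ((LL lev i).card + 1)) * (M2 r univ + 1) ^ 3 := by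
  rw [← prod_fiberwise_of_maps_to (s := cl r) (t := range 3) (g := fun K => lc lev K % 3)
    fun K _ => mem_range.2 (Nat.mod_lt _ (by norm_num))]
  have h1 : ∏ i ∈ range H, ((LL lev i).card + 1) =
      ∏ c ∈ range 3, ∏ i ∈ range H, if i % 3 = c then (LL lev i).card + 1 else 1 := by
    rw [prod_comm]
    refine prod_congr rfl fun i _ => ?_
    rw [prod_ite_eq, if_pos (mem_range.2 (Nat.mod_lt _ (by norm_num)))]
  have h2 : (M2 r univ + 1) ^ 3 = ∏ _c ∈ range 3, (M2 r univ + 1) := by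
    rw [prod_const, card_range]
  rw [h1, h2, ← prod_mul_distrib]
  exact prod_le_prod' fun c _ => bound_c hn h hl hH c

/-! ### from the product bound to the number of classes -/

theorem lvl (A : Finset (Finset (Fin n))) (hA : A.Nonempty) (hpos : ∀ K ∈ A, 1 ≤ K.card) :
    4 ^ (A.card - 1) * (∑ K ∈ A, K.card + 1) ≤ 3 ^ (A.card - 1) * ∏ K ∈ A, (K.card + 1) := by
  induction hA using Finset.Nonempty.cons_induction with
  | singleton K => simp
  | cons K A hK hA ih =>
    have ih' := ih fun L hL => hpos L (mem_cons_of_mem hL)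
    have h1 : 1 ≤ K.card := hpos K (mem_cons_self _ _)
    have h2 : 1 ≤ ∑ L ∈ A, L.card := by
      obtain ⟨L, hL⟩ := hA
      refine (hpos L (mem_cons_of_mem hL)).trans ?_
      exact single_le_sum (f := fun L : Finset (Fin n) => L.card) (fun _ _ => Nat.zero_le _) hL
    have h3 : 1 ≤ A.card := card_pos.2 hA
    rw [card_cons, sum_cons, prod_cons]
    obtain ⟨t, ht⟩ : ∃ t, A.card = t + 1 := ⟨A.card - 1, by omega⟩
    rw [ht] at ih' ⊢
    rw [Nat.add_sub_cancel] at ih' ⊢
    set S := ∑ L ∈ A, L.card with hS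
    set P := ∏ L ∈ A, (L.card + 1) with hP
    have h4 : 4 * (K.card + S + 1) ≤ 3 * ((K.card + 1) * (S + 1)) := by
      nlinarith
    calc 4 ^ (t + 1) * (K.card + S + 1) = 4 ^ t * (4 * (K.card + S + 1)) := by ring
      _ ≤ 4 ^ t * (3 * ((K.card + 1) * (S + 1))) := Nat.mul_le_mul_left _ h4
      _ = 3 * (K.card + 1) * (4 ^ t * (S + 1)) := by ring
      _ ≤ 3 * (K.card + 1) * (3 ^ t * P) := Nat.mul_le_mul_left _ ih'
      _ = 3 ^ (t + 1) * ((K.card + 1) * P) := by ring

/-- the classes on level `i` -/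
noncomputable def cli (r : Fin n → Fin n → Prop) (lev : Fin n → ℕ) (i : ℕ) :
    Finset (Finset (Fin n)) := (cl r).filter fun K => lc lev K = i

theorem sum_cli {r : Fin n → Fin n → Prop} {lev : Fin n → ℕ} (hl : Lev r lev) (i : ℕ) :
    ∑ K ∈ cli r lev i, K.card = (LL lev i).card := by
  rw [card_eq_sum_card_fiberwise (f := cls r) (s := LL lev i) (t := cli r lev i)]
  · refine sum_congr rfl fun K hK => congrArg _ ?_
    obtain ⟨hK1, hK2⟩ := mem_filter.1 hK
    obtain ⟨x, rfl⟩ := mem_cl.1 hK1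
    rw [lc_cls hl] at hK2
    ext y
    rw [mem_filter, mem_LL, mem_cls]
    constructor
    · intro h
      exact ⟨(hl.tw h).symm.trans hK2, (cls_eq h).symm⟩
    · rintro ⟨_, h⟩
      exact tw_symm (cls_eq_iff.1 h)
  · intro x hx
    rw [mem_coe, mem_LL] at hx
    rw [mem_coe]
    refine mem_filter.2 ⟨mem_cl.2 ⟨x, rfl⟩, ?_⟩
    rw [lc_cls hl, hx]

theorem cli_pos {r : Fin n → Fin n → Prop} {lev : Fin n → ℕ} {i : ℕ} {K : Finset (Fin n)}
    (hK : K ∈ cli r lev i) : 1 ≤ K.card := by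
  obtain ⟨x, rfl⟩ := mem_cl.1 (mem_filter.1 hK).1
  exact card_pos.2 ⟨x, mem_cls.2 (tw_refl r x)⟩

theorem cli_mem {r : Fin n → Fin n → Prop} {lev : Fin n → ℕ} (hl : Lev r lev) (x : Fin n) :
    cls r x ∈ cli r lev (lev x) :=
  mem_filter.2 ⟨mem_cl.2 ⟨x, rfl⟩, lc_cls hl x⟩

theorem sum_card_cli {r : Fin n → Fin n → Prop} {lev : Fin n → ℕ} (hl : Lev r lev) {H : ℕ}
    (hH : ∀ x, lev x < H) : ∑ i ∈ range H, (cli r lev i).card = (cl r).card := by
  symm
  refine card_eq_sum_card_fiberwise (f := lc lev) fun K hK => ?_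
  obtain ⟨x, rfl⟩ := mem_cl.1 (mem_coe.1 hK)
  rw [mem_coe, mem_range, lc_cls hl]
  exact hH x

theorem prod_cli {r : Fin n → Fin n → Prop} {lev : Fin n → ℕ} (hl : Lev r lev) {H : ℕ}
    (hH : ∀ x, lev x < H) : ∏ i ∈ range H, ∏ K ∈ cli r lev i, (K.card + 1) =
      ∏ K ∈ cl r, (K.card + 1) := by
  refine prod_fiberwise_of_maps_to (g := lc lev) (fun K hK => ?_) _
  obtain ⟨x, rfl⟩ := mem_cl.1 hK
  rw [mem_range, lc_cls hl]
  exact hH x

theorem bound_num (hn : 1 ≤ n) {k : ℕ} {r : Fin n → Fin n → Prop} (h : Best k r)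
    {lev : Fin n → ℕ} (hl : Lev r lev) {H : ℕ} (hH : ∀ x, lev x < H)
    (hH' : ∀ i < H, ∃ x, lev x = i) :
    H ≤ (cl r).card ∧ ∑ i ∈ range H, ((cli r lev i).card - 1) = (cl r).card - H ∧
      4 ^ ((cl r).card - H) ≤ 3 ^ ((cl r).card - H) * (M2 r univ + 1) ^ 3 := by
  have h1 : ∀ i ∈ range H, 1 ≤ (cli r lev i).card := by
    intro i hi
    obtain ⟨x, rfl⟩ := hH' i (mem_range.1 hi)
    exact card_pos.2 ⟨_, cli_mem hl x⟩
  have h2 : ∑ i ∈ range H, ((cli r lev i).card - 1) + H = (cl r).card := by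
    rw [← sum_card_cli hl hH]
    have e1 : ∑ i ∈ range H, (cli r lev i).card = ∑ i ∈ range H, (((cli r lev i).card - 1) + 1) :=
      sum_congr rfl fun i hi => by
        have := h1 i hi
        omega
    rw [e1, sum_add_distrib, sum_const, card_range, smul_eq_mul, mul_one]
  refine ⟨by omega, by omega, ?_⟩
  have e2 : (cl r).card - H = ∑ i ∈ range H, ((cli r lev i).card - 1) := by omega
  rw [e2, ← prod_pow_eq_pow_sum, ← prod_pow_eq_pow_sum]
  have h3 := bound_all hn h hl hH
  rw [← prod_cli hl hH] at h3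
  have h4 : (∏ i ∈ range H, 4 ^ ((cli r lev i).card - 1)) * ∏ i ∈ range H, ((LL lev i).card + 1) ≤
      (∏ i ∈ range H, 3 ^ ((cli r lev i).card - 1)) *
        ∏ i ∈ range H, ∏ K ∈ cli r lev i, (K.card + 1) := by
    rw [← prod_mul_distrib, ← prod_mul_distrib]
    refine prod_le_prod' fun i hi => ?_
    rw [← sum_cli hl i]
    exact lvl _ (card_pos.1 (h1 i hi)) fun K hK => cli_pos hK
  have h5 : 0 < ∏ i ∈ range H, ((LL lev i).card + 1) := prod_pos fun i _ => Nat.succ_pos _
  refine Nat.le_of_mul_le_mul_right (h4.trans ?_) h5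
  calc (∏ i ∈ range H, 3 ^ ((cli r lev i).card - 1)) *
        ∏ i ∈ range H, ∏ K ∈ cli r lev i, (K.card + 1)
      ≤ (∏ i ∈ range H, 3 ^ ((cli r lev i).card - 1)) *
        ((∏ i ∈ range H, ((LL lev i).card + 1)) * (M2 r univ + 1) ^ 3) := Nat.mul_le_mul_left _ h3
    _ = _ := by ring

end Pool.Agent.FTP
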