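import Pool.Agent.FTP.T6

/-!
# Few mixed levels: the binary pigeonhole principle
-/

set_option autoImplicit false

namespace Pool.Agent.FTP

open Finset Pool.Agent.MP_f1b527_co
open scoped Classical

variable {n : ℕ}

/-- pairwise distances at least three -/
def Sep3 (I : Finset ℕ) : Prop := ∀ i ∈ I, ∀ j ∈ I, i < j → i + 3 ≤ j

/-- the points on the levels next to the level `i` -/
noncomputable def NB (lev : Fin n → ℕ) (i : ℕ) : Finset (Fin n) :=
  univ.filter fun z => lev z + 1 = i ∨ lev z = i + 1

theorem mem_NB {lev : Fin n → ℕ} {i : ℕ} {z : Fin n} :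
    z ∈ NB lev i ↔ lev z + 1 = i ∨ lev z = i + 1 := by
  unfold NB
  rw [mem_filter]
  exact ⟨fun h => h.2, fun h => ⟨mem_univ _, h⟩⟩

theorem deg_le {r : Fin n → Fin n → Prop} {lev : Fin n → ℕ} (hl : Lev r lev) (hr : Nst r)
    {x y : Fin n} (hxy : lev x = lev y) :
    up r x + dn r x ≤ up r y + dn r y + (NB lev (lev x)).card := by
  have h1 : ∀ z, C r x z + C r z x ≤ C r y z + C r z y + (if z ∈ NB lev (lev x) then 1 else 0) := by
    intro z
    by_cases hz : z ∈ NB lev (lev x)
    · rw [if_pos hz]
      have h2 : C r x z + C r z x ≤ 1 := by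
        unfold C
        by_cases ha : r x z
        · have hb : ¬ r z x := fun hb => hr.irr x (hr.tr x z x ha hb)
          rw [if_pos ha, if_neg hb]
        · rw [if_neg ha]
          split_ifs <;> simp
      omega
    · rw [if_neg hz]
      rw [mem_NB, not_or] at hz
      have h3 : r x z ↔ r y z := by
        constructor
        · intro h
          have := hl.lt x z h
          exact hl.two hr (by omega)
        · intro h
          have := hl.lt y z h
          exact hl.two hr (by omega)
      have h4 : r z x ↔ r z y := by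
        constructor
        · intro h
          have := hl.lt z x h
          exact hl.two hr (by omega)
        · intro h
          have := hl.lt z y h
          exact hl.two hr (by omega)
      rw [C_congr h3, C_congr h4]
      exact le_refl _
  have h5 : ∑ z, (C r x z + C r z x) ≤
      ∑ z, (C r y z + C r z y + (if z ∈ NB lev (lev x) then 1 else 0)) := sum_le_sum fun z _ => h1 z
  rw [sum_add_distrib, sum_add_distrib, sum_add_distrib] at h5
  have h6 : ∑ z, (if z ∈ NB lev (lev x) then 1 else 0) = (NB lev (lev x)).card := by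
    rw [← card_filter, filter_univ_mem]
  rw [h6] at h5
  exact h5

theorem q_le {r : Fin n → Fin n → Prop} {lev : Fin n → ℕ} (hl : Lev r lev) (hr : Nst r)
    {x y : Fin n} (hxy : lev x = lev y) :
    q r univ x ≤ q r univ y + (NB lev (lev x)).card := by
  have h1 := deg_le hl hr hxy.symm
  have h2 := q_deg hr x
  have h3 := q_deg hr y
  rw [← hxy] at h1
  omega

/-- the binary pigeonhole principle -/
theorem binary (hn : 1 ≤ n) {k : ℕ} {r : Fin n → Fin n → Prop} (h : Best k r)
    {lev : Fin n → ℕ} (hl : Lev r lev) {I : Finset ℕ} (hI : Sep3 I) {a b : ℕ → Fin n}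
    (ha : ∀ i ∈ I, lev (a i) = i) (hb : ∀ i ∈ I, lev (b i) = i)
    (hab : ∀ i ∈ I, ¬ tw r (a i) (b i)) : 2 ^ I.card ≤ ∑ i ∈ I, (NB lev i).card + 1 := by
  -- the smaller degree
  set m : ℕ → ℕ := fun i => min (q r univ (a i)) (q r univ (b i)) with hm
  set g : Finset ℕ → ℕ → Fin n := fun T i => if i ∈ T then a i else b i with hg
  have hgl : ∀ T, ∀ i ∈ I, lev (g T i) = i := by
    intro T i hi
    by_cases hT : i ∈ T
    · have : g T i = a i := if_pos hT
      rw [this, ha i hi]
    · have : g T i = b i := if_neg hT
      rw [this, hb i hi]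
  have hgi : ∀ T, Set.InjOn (g T) I := by
    intro T i hi j hj hij
    rw [← hgl T i hi, ← hgl T j hj, hij]
  have hgq : ∀ T, ∀ i ∈ I, m i ≤ q r univ (g T i) ∧ q r univ (g T i) ≤ m i + (NB lev i).card := by
    intro T i hi
    have hl1 : lev (a i) = lev (b i) := by rw [ha i hi, hb i hi]
    have h1 := q_le hl h.nst hl1
    have h2 := q_le hl h.nst hl1.symm
    rw [ha i hi] at h1
    rw [hb i hi] at h2
    have h3 : m i = min (q r univ (a i)) (q r univ (b i)) := rfl
    by_cases hT : i ∈ T
    · have : g T i = a i := if_pos hT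
      rw [this]
      omega
    · have : g T i = b i := if_neg hT
      rw [this]
      omega
  have hcard : (Icc (∑ i ∈ I, m i) (∑ i ∈ I, m i + ∑ i ∈ I, (NB lev i).card)).card =
      ∑ i ∈ I, (NB lev i).card + 1 := by
    rw [Nat.card_Icc]
    omega
  rw [← card_powerset, ← hcard]
  refine card_le_card_of_injOn (fun T => ∑ i ∈ I, q r univ (g T i)) ?_ ?_
  · intro T _
    rw [mem_coe, mem_Icc, ← sum_add_distrib]
    exact ⟨sum_le_sum fun i hi => (hgq T i hi).1, sum_le_sum fun i hi => (hgq T i hi).2⟩
  · intro T hT T' hT' hTT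
    rw [mem_coe, mem_powerset] at hT hT'
    have hTT' : ∑ i ∈ I, q r univ (g T i) = ∑ i ∈ I, q r univ (g T' i) := hTT
    have hlev : ∀ T, ∀ z ∈ I.image (g T), lev z ∈ I := by
      intro T z hz
      obtain ⟨i, hi, rfl⟩ := mem_image.1 hz
      rw [hgl T i hi]
      exact hi
    have hZ : Sp lev (I.image (g T) ∪ I.image (g T')) := by
      have h1 : ∀ z ∈ I.image (g T) ∪ I.image (g T'), lev z ∈ I := by
        intro z hz
        rcases mem_union.1 hz with hz | hz
        · exact hlev T z hz
        · exact hlev T' z hz
      exact fun z hz z' hz' hzz => hI _ (h1 z hz) _ (h1 z' hz') hzz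
    have hcnt : ∀ T i, ((I.image (g T)).filter fun x => lev x = i).card = if i ∈ I then 1 else 0 := by
      intro T i
      by_cases hi : i ∈ I
      · rw [if_pos hi, card_eq_one]
        refine ⟨g T i, ?_⟩
        ext z
        rw [mem_filter, mem_image, mem_singleton]
        constructor
        · rintro ⟨⟨j, hj, rfl⟩, hji⟩
          rw [hgl T j hj] at hji
          rw [hji]
        · rintro rfl
          exact ⟨⟨i, hi, rfl⟩, hgl T i hi⟩
      · rw [if_neg hi, card_eq_zero, filter_eq_empty_iff]
        intro z hz hzi
        exact hi (hzi ▸ hlev T z hz)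
    have e2 : ∑ x ∈ I.image (g T), q r univ x = ∑ x ∈ I.image (g T'), q r univ x := by
      rw [sum_image (hgi T), sum_image (hgi T')]
      exact hTT'
    have hS : I.image (g T) = I.image (g T') := by
      refine h.coll hn hl hZ (fun i => by rw [hcnt, hcnt]) e2 fun x hx y hy hxy => ?_
      rw [mem_sdiff] at hx hy
      obtain ⟨i, hi, rfl⟩ := mem_image.1 hx.1
      obtain ⟨j, hj, rfl⟩ := mem_image.1 hy.1
      have hij : i = j := by
        rw [← hgl T i hi, ← hgl T' j hj]
        exact hl.tw hxy
      subst hij
      have hne : g T i ≠ g T' i := by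
        intro he
        exact hx.2 (he ▸ mem_image_of_mem _ hi)
      by_cases h1 : i ∈ T
      · have e3 : g T i = a i := if_pos h1
        by_cases h2 : i ∈ T'
        · exact hne (e3.trans (if_pos h2 : g T' i = a i).symm)
        · have e4 : g T' i = b i := if_neg h2
          rw [e3, e4] at hxy
          exact hab i hi hxy
      · have e3 : g T i = b i := if_neg h1
        by_cases h2 : i ∈ T'
        · have e4 : g T' i = a i := if_pos h2
          rw [e3, e4] at hxy
          exact hab i hi (tw_symm hxy)
        · exact hne (e3.trans (if_neg h2 : g T' i = b i).symm)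
    have key : ∀ T T' : Finset ℕ, T ⊆ I → I.image (g T) = I.image (g T') → T ⊆ T' := by
      intro T T' hT hS i hi
      have hiI := hT hi
      by_contra h2
      have e3 : g T i = a i := if_pos hi
      have e4 : g T' i = b i := if_neg h2
      have h3 : g T i ∈ I.image (g T') := hS ▸ mem_image_of_mem _ hiI
      obtain ⟨j, hj, hji⟩ := mem_image.1 h3
      have h4 : j = i := by
        rw [← hgl T' j hj, hji, hgl T i hiI]
      rw [h4, e4, e3] at hji
      refine hab i hiI ?_
      rw [hji]
      exact tw_refl r _
    exact Subset.antisymm (key T T' hT hS) (key T' T hT' hS.symm)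

theorem sum_NB {lev : Fin n → ℕ} {I : Finset ℕ} (hI : Sep3 I) {a : ℕ → Fin n}
    (ha : ∀ i ∈ I, lev (a i) = i) (hne : I.Nonempty) : ∑ i ∈ I, (NB lev i).card + 1 ≤ n := by
  obtain ⟨i0, hi0⟩ := hne
  have h1 : ∑ i ∈ I, (NB lev i).card = (I.biUnion (NB lev)).card := by
    symm
    refine card_biUnion fun i hi j hj hij => ?_
    show Disjoint (NB lev i) (NB lev j)
    rw [disjoint_left]
    intro z hz hz'
    rw [mem_NB] at hz hz'
    rcases lt_or_gt_of_ne hij with h2 | h2
    · have := hI i hi j hj h2
      omega
    · have := hI j hj i hi h2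
      omega
  have h2 : I.biUnion (NB lev) ⊆ univ.erase (a i0) := by
    intro z hz
    rw [mem_erase]
    refine ⟨?_, mem_univ z⟩
    rintro rfl
    obtain ⟨j, hj, hz⟩ := mem_biUnion.1 hz
    rw [mem_NB, ha i0 hi0] at hz
    rcases lt_trichotomy i0 j with h3 | h3 | h3
    · have := hI i0 hi0 j hj h3
      omega
    · omega
    · have := hI j hj i0 hi0 h3
      omega
  have h3 := card_le_card h2
  have h4 := card_erase_add_one (mem_univ (a i0))
  rw [card_univ, Fintype.card_fin] at h4
  omega

/-- selection of separated elements -/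
theorem exists_sep (B : Finset ℕ) :
    ∃ I ⊆ B, Sep3 I ∧ (B ∪ B.image (· + 1)).card ≤ 4 * I.card := by
  induction hc : B.card using Nat.strong_induction_on generalizing B with
  | _ c ih =>
    rcases eq_empty_or_nonempty B with h0 | h0
    · subst h0
      exact ⟨∅, Subset.refl _, fun i hi => absurd hi (notMem_empty i), by simp⟩
    · set m := B.min' h0 with hm
      have hmB : m ∈ B := min'_mem B h0
      have hmin : ∀ i ∈ B, m ≤ i := fun i hi => min'_le B i hi
      set B' := B.filter fun i => m + 3 ≤ i with hB'
      have hlt : B'.card < c := by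
        rw [← hc]
        refine card_lt_card ⟨filter_subset _ _, fun hs => ?_⟩
        have := (mem_filter.1 (hs hmB)).2
        omega
      obtain ⟨I, hI1, hI2, hI3⟩ := ih _ hlt B' rfl
      have hmI : m ∉ I := fun h => by
        have := (mem_filter.1 (hI1 h)).2
        omega
      refine ⟨insert m I, ?_, ?_, ?_⟩
      · intro i hi
        rcases mem_insert.1 hi with h | h
        · exact h ▸ hmB
        · exact (mem_filter.1 (hI1 h)).1
      · intro i hi j hj hij
        rcases mem_insert.1 hi with h | h
        · rcases mem_insert.1 hj with h' | h'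
          · omega
          · have := (mem_filter.1 (hI1 h')).2
            omega
        · rcases mem_insert.1 hj with h' | h'
          · have := (mem_filter.1 (hI1 h)).2
            omega
          · exact hI2 i h j h' hij
      · have hsub : B ∪ B.image (· + 1) ⊆ Icc m (m + 3) ∪ (B' ∪ B'.image (· + 1)) := by
          intro i hi
          rcases mem_union.1 hi with h | h
          · have h1 := hmin i h
            by_cases h2 : m + 3 ≤ i
            · exact mem_union_right _ (mem_union_left _ (mem_filter.2 ⟨h, h2⟩))
            · exact mem_union_left _ (mem_Icc.2 ⟨h1, by omega⟩)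
          · obtain ⟨j, hj, rfl⟩ := mem_image.1 h
            have h1 := hmin j hj
            by_cases h2 : m + 3 ≤ j
            · exact mem_union_right _ (mem_union_right _ (mem_image_of_mem _ (mem_filter.2 ⟨hj, h2⟩)))
            · exact mem_union_left _ (mem_Icc.2 ⟨by omega, by omega⟩)
        have h1 := card_le_card hsub
        have h2 := card_union_le (Icc m (m + 3)) (B' ∪ B'.image (· + 1))
        have h3 : (Icc m (m + 3)).card = 4 := by
          rw [Nat.card_Icc]
          omega
        rw [card_insert_of_notMem hmI]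
        omega

/-- the gaps between consecutive levels that are not completely comparable -/
noncomputable def BG (r : Fin n → Fin n → Prop) (lev : Fin n → ℕ) (H : ℕ) : Finset ℕ :=
  (range H).filter fun i => ∃ x y, lev x = i ∧ lev y = i + 1 ∧ ¬ r x y

theorem BG_tw {r : Fin n → Fin n → Prop} {lev : Fin n → ℕ} (hl : Lev r lev) {H : ℕ} {i : ℕ}
    (hi : i ∈ BG r lev H) : ∃ x w, lev x = i ∧ lev w = i ∧ ¬ tw r x w := by
  obtain ⟨x, y, hx, hy, hxy⟩ := (mem_filter.1 hi).2
  obtain ⟨w, hw, hw1⟩ := hl.ex y (by omega)
  exact ⟨x, w, hx, by omega, fun h => hxy ((h y).1.2 hw)⟩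

/-- the levels that are not completely comparable to the rest -/
noncomputable def NC (r : Fin n → Fin n → Prop) (lev : Fin n → ℕ) (H : ℕ) : Finset ℕ :=
  (range H).filter fun i => ∃ x y, lev x = i ∧ lev y ≠ i ∧ ¬ r x y ∧ ¬ r y x

theorem NC_sub {r : Fin n → Fin n → Prop} {lev : Fin n → ℕ} (hl : Lev r lev) (hr : Nst r) {H : ℕ} :
    NC r lev H ⊆ BG r lev H ∪ (BG r lev H).image (· + 1) := by
  intro i hi
  obtain ⟨hi1, x, y, hx, hy, h1, h2⟩ := mem_filter.1 hi
  rw [mem_range] at hi1
  rw [mem_union, mem_image]
  by_cases hA : lev x + 2 ≤ lev y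
  · exact absurd (hl.two hr hA) h1
  · by_cases hB : lev y + 2 ≤ lev x
    · exact absurd (hl.two hr hB) h2
    · by_cases hC : lev y = i + 1
      · exact Or.inl (mem_filter.2 ⟨mem_range.2 hi1, x, y, hx, hC, h1⟩)
      · refine Or.inr ⟨lev y, mem_filter.2 ⟨mem_range.2 (by omega), y, x, rfl, by omega, h2⟩, by omega⟩

/-- at most `4 log n` levels are not completely comparable to the rest -/
theorem NC_bound (hn : 1 ≤ n) {k : ℕ} {r : Fin n → Fin n → Prop} (h : Best k r)
    {lev : Fin n → ℕ} (hl : Lev r lev) (H : ℕ) : 2 ^ (NC r lev H).card ≤ n ^ 4 := by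
  obtain ⟨I, hI1, hI2, hI3⟩ := exists_sep (BG r lev H)
  have h1 : 2 ^ I.card ≤ n := by
    rcases eq_empty_or_nonempty I with h0 | h0
    · rw [h0, card_empty, pow_zero]
      exact hn
    · have h2 : ∀ i ∈ I, ∃ x w : Fin n, lev x = i ∧ lev w = i ∧ ¬ tw r x w := fun i hi =>
        BG_tw hl (hI1 hi)
      let z : Fin n := ⟨0, hn⟩
      let a : ℕ → Fin n := fun i => if hi : i ∈ I then (h2 i hi).choose else z
      let b : ℕ → Fin n := fun i => if hi : i ∈ I then (h2 i hi).choose_spec.choose else z
      have ea : ∀ i, ∀ hi : i ∈ I, a i = (h2 i hi).choose := fun i hi => dif_pos hi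
      have eb : ∀ i, ∀ hi : i ∈ I, b i = (h2 i hi).choose_spec.choose := fun i hi => dif_pos hi
      have ha : ∀ i ∈ I, lev (a i) = i := fun i hi => by
        rw [ea i hi]
        exact (h2 i hi).choose_spec.choose_spec.1
      have hb : ∀ i ∈ I, lev (b i) = i := fun i hi => by
        rw [eb i hi]
        exact (h2 i hi).choose_spec.choose_spec.2.1
      have hab : ∀ i ∈ I, ¬ tw r (a i) (b i) := fun i hi => by
        rw [ea i hi, eb i hi]
        exact (h2 i hi).choose_spec.choose_spec.2.2
      exact (binary hn h hl hI2 ha hb hab).trans (sum_NB hI2 ha h0)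
  have h2 : (NC r lev H).card ≤ 4 * I.card := (card_le_card (NC_sub hl h.nst)).trans hI3
  calc 2 ^ (NC r lev H).card ≤ 2 ^ (4 * I.card) := Nat.pow_le_pow_right (by norm_num) h2
    _ = (2 ^ I.card) ^ 4 := by rw [← pow_mul, mul_comm]
    _ ≤ n ^ 4 := Nat.pow_le_pow_left h1 4

/-- the number of levels is large when the number of comparable pairs is large -/
theorem height_ge {r : Fin n → Fin n → Prop} {lev : Fin n → ℕ} (hl : Lev r lev)
    {H : ℕ} (hH : ∀ x, lev x < H) : n ^ 2 ≤ H * (M2 r univ + n) := by
  have h1 : ∑ i ∈ range H, (LL lev i).card = n := by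
    have h2 := card_eq_sum_card_fiberwise (f := lev) (s := (univ : Finset (Fin n))) (t := range H)
      fun x _ => mem_coe.2 (mem_range.2 (hH x))
    rw [card_univ, Fintype.card_fin] at h2
    exact h2.symm
  have h2 : ∑ i ∈ range H, (LL lev i).card ^ 2 ≤ M2 r univ + n := by
    have h3 : ∀ x : Fin n, (univ.filter fun y => lev y = lev x).card ≤ q r univ x + 1 := by
      intro x
      have h4 : (univ.filter fun y => lev y = lev x).card =
          ∑ y, if lev y = lev x then 1 else 0 := card_filter _ _
      have h5 : q r univ x + 1 = ∑ y, (I r x y + if x = y then 1 else 0) := by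
        rw [sum_add_distrib, sum_ite_eq, if_pos (mem_univ x)]
        rfl
      rw [h4, h5]
      refine sum_le_sum fun y _ => ?_
      by_cases h6 : lev y = lev x
      · rw [if_pos h6]
        by_cases h7 : x = y
        · rw [if_pos h7]
          omega
        · have h8 : I r x y = 1 := by
            unfold I
            refine if_pos ⟨h7, fun h9 => ?_, fun h9 => ?_⟩
            · have := hl.lt x y h9
              omega
            · have := hl.lt y x h9
              omega
          omega
      · rw [if_neg h6]
        exact Nat.zero_le _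
    have h4 : ∑ i ∈ range H, (LL lev i).card ^ 2 =
        ∑ i ∈ range H, ∑ x ∈ (univ : Finset (Fin n)) with lev x = i,
          (univ.filter fun y => lev y = lev x).card := by
      refine sum_congr rfl fun i _ => ?_
      have h5 : ∀ x ∈ (univ : Finset (Fin n)).filter (fun x => lev x = i),
          (univ.filter fun y => lev y = lev x).card = (LL lev i).card := by
        intro x hx
        rw [(mem_filter.1 hx).2]
        rfl
      rw [sum_congr rfl h5, sum_const, smul_eq_mul, sq]
      rfl
    have h5 : ∑ i ∈ range H, ∑ x ∈ (univ : Finset (Fin n)) with lev x = i,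
          (univ.filter fun y => lev y = lev x).card =
        ∑ x : Fin n, (univ.filter fun y => lev y = lev x).card :=
      sum_fiberwise_of_maps_to (fun x _ => mem_range.2 (hH x)) _
    rw [h4, h5]
    refine (sum_le_sum fun x _ => h3 x).trans (le_of_eq ?_)
    rw [sum_add_distrib, sum_const, card_univ, Fintype.card_fin, smul_eq_mul, mul_one]
    rfl
  have h3 := sum_mul_sq_le_sq_mul_sq (range H) (fun _ => 1) (fun i => (LL lev i).card)
  simp only [one_mul, one_pow, sum_const, card_range, smul_eq_mul, mul_one] at h3
  rw [h1] at h3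
  exact h3.trans (Nat.mul_le_mul_left _ h2)

end Pool.Agent.FTP
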