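import Pool.Agent.FTP.T7
import Pool.Agent.LRP.P2
import Pool.Agent.LRP.P4

/-!
# Ordinal sums
-/

set_option autoImplicit false

namespace Pool.Agent.FTP

open Finset Pool.Agent.MP_f1b527_co Pool.Agent.LRE Pool.Agent.LRP

section
variable {X : Type*} [DecidableEq X]

theorem mins_congr {r s : X → X → Prop} [DecidableRel r] [DecidableRel s] {S : Finset X}
    (h : ∀ x ∈ S, ∀ y ∈ S, r x y ↔ s x y) : mins r S = mins s S := by
  ext x
  rw [mem_mins, mem_mins]
  exact ⟨fun h1 => ⟨h1.1, fun y hy h2 => h1.2 y hy ((h y hy x h1.1).2 h2)⟩,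
    fun h1 => ⟨h1.1, fun y hy h2 => h1.2 y hy ((h y hy x h1.1).1 h2)⟩⟩

theorem lin_congr {r s : X → X → Prop} [DecidableRel r] [DecidableRel s] {S : Finset X}
    (h : ∀ x ∈ S, ∀ y ∈ S, r x y ↔ s x y) : lin r S = lin s S := by
  induction hc : S.card generalizing S with
  | zero =>
    rw [card_eq_zero] at hc
    subst hc
    rw [lin_empty, lin_empty]
  | succ c ih =>
    have hS : S.Nonempty := by
      rw [← card_pos]
      omega
    rw [lin_rec r hS, lin_rec s hS, mins_congr h]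
    refine sum_congr rfl fun x hx => ?_
    have hxS : x ∈ S := ((mem_mins s).1 hx).1
    refine ih (fun a ha b hb => h a (mem_of_mem_erase ha) b (mem_of_mem_erase hb)) ?_
    rw [card_erase_of_mem hxS]
    omega

variable {r : X → X → Prop} [DecidableRel r]

theorem exists_min_below (hirr : ∀ x, ¬ r x x) (htr : ∀ a b c, r a b → r b c → r a c)
    {S : Finset X} {y : X} (hy : y ∈ S) : ∃ m ∈ mins r S, m = y ∨ r m y := by
  induction hc : (S.filter fun z => r z y).card using Nat.strong_induction_on generalizing y with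
  | _ c ih =>
    by_cases hm : y ∈ mins r S
    · exact ⟨y, hm, Or.inl rfl⟩
    · have h1 : ∃ z ∈ S, r z y := by
        by_contra hcon
        push Not at hcon
        exact hm ((mem_mins r).2 ⟨hy, hcon⟩)
      obtain ⟨z, hz, hzy⟩ := h1
      have hlt : (S.filter fun w => r w z).card < c := by
        rw [← hc]
        refine card_lt_card ⟨fun w hw => ?_, fun hs => ?_⟩
        · rw [mem_filter] at hw ⊢
          exact ⟨hw.1, htr w z y hw.2 hzy⟩
        · exact hirr z (mem_filter.1 (hs (mem_filter.2 ⟨hz, hzy⟩))).2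
      obtain ⟨m, hm1, hm2⟩ := ih _ hlt hz rfl
      refine ⟨m, hm1, Or.inr ?_⟩
      rcases hm2 with rfl | h2
      · exact hzy
      · exact htr m z y h2 hzy

theorem mins_union (hirr : ∀ x, ¬ r x x) (htr : ∀ a b c, r a b → r b c → r a c)
    {A B : Finset X} (hAB : ∀ a ∈ A, ∀ b ∈ B, r a b ∨ r b a) {m : X} (hm : m ∈ mins r (A ∪ B))
    (hmA : m ∈ A) : mins r (A ∪ B) = mins r A := by
  have h1 : ∀ x ∈ mins r (A ∪ B), x ∈ A := by
    intro x hx
    rcases mem_union.1 ((mem_mins r).1 hx).1 with h2 | h2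
    · exact h2
    · rcases hAB m hmA x h2 with h3 | h3
      · exact absurd h3 (((mem_mins r).1 hx).2 m (mem_union_left _ hmA))
      · exact absurd h3 (((mem_mins r).1 hm).2 x (mem_union_right _ h2))
  ext x
  constructor
  · intro hx
    exact (mem_mins r).2 ⟨h1 x hx, fun y hy => ((mem_mins r).1 hx).2 y (mem_union_left _ hy)⟩
  · intro hx
    have hxA := ((mem_mins r).1 hx).1
    refine (mem_mins r).2 ⟨mem_union_left _ hxA, fun y hy hyx => ?_⟩
    obtain ⟨w, hw, hw2⟩ := exists_min_below hirr htr hy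
    have hwx : r w x := by
      rcases hw2 with rfl | h2
      · exact hyx
      · exact htr w y x h2 hyx
    exact ((mem_mins r).1 hx).2 w (h1 w hw) hwx

/-- the linear extensions of a set that splits into two completely comparable sets -/
theorem lin_mul (hirr : ∀ x, ¬ r x x) (htr : ∀ a b c, r a b → r b c → r a c)
    {A B : Finset X} (hd : Disjoint A B) (hAB : ∀ a ∈ A, ∀ b ∈ B, r a b ∨ r b a) :
    lin r (A ∪ B) = lin r A * lin r B := by
  induction hc : (A ∪ B).card using Nat.strong_induction_on generalizing A B with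
  | _ c ih =>
    rcases eq_empty_or_nonempty (A ∪ B) with h0 | h0
    · rw [union_eq_empty] at h0
      rw [h0.1, h0.2, union_empty, lin_empty, mul_one]
    · have step : ∀ A B : Finset X, Disjoint A B → (∀ a ∈ A, ∀ b ∈ B, r a b ∨ r b a) →
          (A ∪ B).card = c → (∃ m ∈ mins r (A ∪ B), m ∈ A) → lin r (A ∪ B) = lin r A * lin r B := by
        intro A B hd hAB hc ⟨m, hm, hmA⟩
        have hne : (A ∪ B).Nonempty := ⟨m, mem_union_left _ hmA⟩
        rw [lin_rec r hne, mins_union hirr htr hAB hm hmA, lin_rec r ⟨m, hmA⟩, sum_mul]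
        refine sum_congr rfl fun x hx => ?_
        have hxA := ((mem_mins r).1 hx).1
        have hxB : x ∉ B := fun h => disjoint_left.1 hd hxA h
        have e1 : (A ∪ B).erase x = A.erase x ∪ B := by
          rw [erase_union_distrib, erase_eq_of_notMem hxB]
        rw [e1]
        refine ih _ ?_ (disjoint_of_subset_left (erase_subset _ _) hd)
          (fun a ha b hb => hAB a (mem_of_mem_erase ha) b hb) rfl
        rw [← e1, ← hc]
        exact card_erase_lt_of_mem (mem_union_left _ hxA)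
      obtain ⟨y, hy⟩ := h0
      obtain ⟨m, hm, -⟩ := exists_min_below (r := r) hirr htr hy
      rcases mem_union.1 ((mem_mins r).1 hm).1 with h1 | h1
      · exact step A B hd hAB hc ⟨m, hm, h1⟩
      · rw [union_comm, mul_comm]
        rw [union_comm] at hm
        exact step B A hd.symm (fun b hb a ha => (hAB a ha b hb).symm) (by rw [union_comm]; exact hc)
          ⟨m, hm, h1⟩

theorem lin_pos (hirr : ∀ x, ¬ r x x) (htr : ∀ a b c, r a b → r b c → r a c) (S : Finset X) :
    0 < lin r S := by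
  induction hc : S.card generalizing S with
  | zero =>
    rw [card_eq_zero] at hc
    subst hc
    rw [lin_empty]
    exact Nat.one_pos
  | succ c ih =>
    have hS : S.Nonempty := by
      rw [← card_pos]
      omega
    rw [lin_rec r hS]
    obtain ⟨y, hy⟩ := hS
    obtain ⟨m, hm, -⟩ := exists_min_below (r := r) hirr htr hy
    refine sum_pos (fun x hx => ih (S.erase x) ?_) ⟨m, hm⟩
    rw [card_erase_of_mem ((mem_mins r).1 hx).1]
    omega

/-- the comparable pairs of a set that splits into two completely comparable sets -/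
theorem cp_mul (hirr : ∀ x, ¬ r x x) (htr : ∀ a b c, r a b → r b c → r a c)
    {A B : Finset X} (hd : Disjoint A B) (hAB : ∀ a ∈ A, ∀ b ∈ B, r a b ∨ r b a) :
    cp r (A ∪ B) = cp r A + cp r B + A.card * B.card := by
  rw [p4_union r hd, sum_comm (s := B) (t := A), add_assoc, ← sum_add_distrib]
  congr 1
  have h1 : ∀ x ∈ A, ∑ y ∈ B, C r x y + ∑ y ∈ B, C r y x = B.card := by
    intro x hx
    rw [← sum_add_distrib, card_eq_sum_ones]
    refine sum_congr rfl fun y hy => ?_
    unfold C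
    rcases hAB x hx y hy with h2 | h2
    · rw [if_pos h2, if_neg fun h3 => hirr x (htr x y x h2 h3)]
    · rw [if_pos h2, if_neg fun h3 => hirr x (htr x y x h3 h2)]
  rw [sum_congr rfl h1, sum_const, smul_eq_mul]

omit [DecidableEq X] in
theorem cp_congr {r s : X → X → Prop} [DecidableRel r] [DecidableRel s] {S : Finset X}
    (h : ∀ x ∈ S, ∀ y ∈ S, r x y ↔ s x y) : cp r S = cp s S := by
  unfold cp
  refine sum_congr rfl fun x hx => sum_congr rfl fun y hy => ?_
  unfold C
  by_cases h1 : r x y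
  · rw [if_pos h1, if_pos ((h x hx y hy).1 h1)]
  · rw [if_neg h1, if_neg fun h2 => h1 ((h x hx y hy).2 h2)]

end

open scoped Classical

/-- the ordinal sum of `s`, placed on the range of `f`, below `r` on the complement -/
def osum {m n : ℕ} (f : Fin m ↪ Fin n) (s : Fin m → Fin m → Prop) (r : Fin n → Fin n → Prop)
    (x y : Fin n) : Prop :=
  (∃ a b, f a = x ∧ f b = y ∧ s a b) ∨
    ((∃ a, f a = x) ∧ ¬ ∃ b, f b = y) ∨ ((¬ ∃ a, f a = x) ∧ (¬ ∃ b, f b = y) ∧ r x y)

section
variable {m n : ℕ} {f : Fin m ↪ Fin n} {s : Fin m → Fin m → Prop} {r : Fin n → Fin n → Prop}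

theorem osum_in (a b : Fin m) : osum f s r (f a) (f b) ↔ s a b := by
  constructor
  · rintro (⟨c, d, h1, h2, h3⟩ | ⟨_, h⟩ | ⟨h, _⟩)
    · rwa [f.injective h1, f.injective h2] at h3
    · exact absurd ⟨b, rfl⟩ h
    · exact absurd ⟨a, rfl⟩ h
  · exact fun h => Or.inl ⟨a, b, rfl, rfl, h⟩

theorem osum_cross {x y : Fin n} (hx : ∃ a, f a = x) (hy : ¬ ∃ b, f b = y) : osum f s r x y :=
  Or.inr (Or.inl ⟨hx, hy⟩)

theorem osum_out {x y : Fin n} (hx : ¬ ∃ a, f a = x) (hy : ¬ ∃ b, f b = y) :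
    osum f s r x y ↔ r x y := by
  constructor
  · rintro (⟨c, d, h1, _⟩ | ⟨h, _⟩ | ⟨_, _, h⟩)
    · exact absurd ⟨c, h1⟩ hx
    · exact absurd h hx
    · exact h
  · exact fun h => Or.inr (Or.inr ⟨hx, hy, h⟩)

theorem osum_irr (hs : ∀ x, ¬ s x x) (hr : ∀ x, ¬ r x x) : ∀ x, ¬ osum f s r x x := by
  rintro x (⟨a, b, h1, h2, h3⟩ | ⟨h1, h2⟩ | ⟨_, _, h⟩)
  · have : a = b := f.injective (h1.trans h2.symm)
    rw [this] at h3
    exact hs b h3
  · exact h2 h1
  · exact hr x h

theorem osum_tr (hs : ∀ a b c, s a b → s b c → s a c) (hr : ∀ a b c, r a b → r b c → r a c) :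
    ∀ x y z, osum f s r x y → osum f s r y z → osum f s r x z := by
  rintro x y z (⟨a, b, rfl, rfl, h3⟩ | ⟨h1, h2⟩ | ⟨h1, h2, h3⟩) h
  · rcases h with ⟨c, d, h4, rfl, h6⟩ | ⟨h4, h5⟩ | ⟨h4, _⟩
    · have : c = b := f.injective h4
      rw [this] at h6
      exact Or.inl ⟨a, d, rfl, rfl, hs a b d h3 h6⟩
    · exact osum_cross ⟨a, rfl⟩ h5
    · exact absurd ⟨b, rfl⟩ h4
  · rcases h with ⟨c, d, h4, rfl, h6⟩ | ⟨h4, h5⟩ | ⟨h4, h5, _⟩
    · exact absurd ⟨c, h4⟩ h2
    · exact absurd h4 h2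
    · exact osum_cross h1 h5
  · rcases h with ⟨c, d, h4, rfl, h6⟩ | ⟨h4, h5⟩ | ⟨h4, h5, h6⟩
    · exact absurd ⟨c, h4⟩ h2
    · exact absurd h4 h2
    · exact (osum_out h1 h5).2 (hr x y z h3 h6)

/-- the numbers of linear extensions and of comparable pairs of the ordinal sum -/
theorem osum_main (hs1 : ∀ x, ¬ s x x) (hs2 : ∀ a b c, s a b → s b c → s a c)
    (hr1 : ∀ x, ¬ r x x) (hr2 : ∀ a b c, r a b → r b c → r a c) {R : Finset (Fin n)}
    (hR : univ.map f = R) :
    lin (osum f s r) univ = lin s univ * lin r Rᶜ ∧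
      cp (osum f s r) univ = cp s univ + cp r Rᶜ + R.card * Rᶜ.card := by
  have hmem : ∀ x, x ∈ R ↔ ∃ a, f a = x := by
    intro x
    rw [← hR, mem_map]
    exact ⟨fun ⟨a, _, h⟩ => ⟨a, h⟩, fun ⟨a, h⟩ => ⟨a, mem_univ _, h⟩⟩
  have h1 := osum_irr (f := f) hs1 hr1
  have h2 := osum_tr (f := f) hs2 hr2
  have hd : Disjoint R Rᶜ := disjoint_compl_right
  have hu : R ∪ Rᶜ = univ := union_compl R
  have hcomp : ∀ a ∈ R, ∀ b ∈ Rᶜ, osum f s r a b ∨ osum f s r b a := fun a ha b hb =>
    Or.inl (osum_cross ((hmem a).1 ha) fun h => (mem_compl.1 hb) ((hmem b).2 h))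
  have e1 : lin (osum f s r) R = lin s univ := by
    rw [← hR, e1_lin]
    exact lin_congr fun a _ b _ => osum_in a b
  have e2 : lin (osum f s r) Rᶜ = lin r Rᶜ := lin_congr fun a ha b hb =>
    osum_out (fun h => (mem_compl.1 ha) ((hmem a).2 h)) fun h => (mem_compl.1 hb) ((hmem b).2 h)
  have e3 : cp (osum f s r) R = cp s univ := by
    rw [← hR, e1_cp]
    exact cp_congr fun a _ b _ => osum_in a b
  have e4 : cp (osum f s r) Rᶜ = cp r Rᶜ := cp_congr fun a ha b hb =>
    osum_out (fun h => (mem_compl.1 ha) ((hmem a).2 h)) fun h => (mem_compl.1 hb) ((hmem b).2 h)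
  constructor
  · rw [← hu, lin_mul h1 h2 hd hcomp, e1, e2]
  · rw [← hu, cp_mul h1 h2 hd hcomp, e3, e4]

end

/-- `e` is the largest number of linear extensions -/
def MX (n k e : ℕ) : Prop :=
  (∃ r : Fin n → Fin n → Prop, (∀ x, ¬ r x x) ∧ (∀ a b c, r a b → r b c → r a c) ∧
    cp r univ = k ∧ lin r univ = e) ∧
  ∀ r : Fin n → Fin n → Prop, (∀ x, ¬ r x x) → (∀ a b c, r a b → r b c → r a c) →
    cp r univ = k → lin r univ ≤ e

theorem MX.unique {n k e e' : ℕ} (h : MX n k e) (h' : MX n k e') : e = e' := by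
  obtain ⟨⟨r, h1, h2, h3, h4⟩, h5⟩ := h
  obtain ⟨⟨r', h1', h2', h3', h4'⟩, h5'⟩ := h'
  exact le_antisymm (h4 ▸ h5' r h1 h2 h3) (h4' ▸ h5 r' h1' h2' h3')

/-- an extremal relation is extremal on a set that is completely comparable to its complement -/
theorem core {n k : ℕ} {r : Fin n → Fin n → Prop} (h1 : ∀ x, ¬ r x x)
    (h2 : ∀ a b c, r a b → r b c → r a c) (hk : cp r univ = k) (hm : MX n k (lin r univ))
    {R : Finset (Fin n)} (hR : ∀ x ∈ R, ∀ y ∈ Rᶜ, r x y ∨ r y x) :
    MX R.card (cp r R) (lin r R) ∧ lin r univ = lin r R * lin r Rᶜ ∧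
      k = cp r R + cp r Rᶜ + R.card * Rᶜ.card := by
  have hd : Disjoint R Rᶜ := disjoint_compl_right
  have hu : R ∪ Rᶜ = univ := union_compl R
  have e0 : lin r univ = lin r R * lin r Rᶜ := by
    rw [← hu, lin_mul h1 h2 hd hR]
  have e0' : k = cp r R + cp r Rᶜ + R.card * Rᶜ.card := by
    rw [← hk, ← hu, cp_mul h1 h2 hd hR]
  refine ⟨⟨?_, ?_⟩, e0, e0'⟩
  · have hmap : (univ : Finset (Fin R.card)).map (R.orderEmbOfFin rfl).toEmbedding = R :=
      map_orderEmbOfFin_univ R rfl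
    refine ⟨fun a b => r ((R.orderEmbOfFin rfl).toEmbedding a) ((R.orderEmbOfFin rfl).toEmbedding b),
      fun a => h1 _, fun a b c => h2 _ _ _, ?_, ?_⟩
    · conv_rhs => rw [← hmap, e1_cp]
    · conv_rhs => rw [← hmap, e1_lin]
  · intro s s1 s2 s3
    have hmap : (univ : Finset (Fin R.card)).map (R.orderEmbOfFin rfl).toEmbedding = R :=
      map_orderEmbOfFin_univ R rfl
    obtain ⟨g1, g2⟩ := osum_main s1 s2 h1 h2 hmap
    have g3 := hm.2 _ (osum_irr s1 h1) (osum_tr s2 h2) (by rw [g2, s3]; exact e0'.symm)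
    rw [g1, e0] at g3
    exact Nat.le_of_mul_le_mul_right g3 (lin_pos h1 h2 _)

/-- the empty relation -/
def nor (n : ℕ) (_ _ : Fin n) : Prop := False

/-- the lower bound by ordinal sums with an antichain -/
theorem mx_lower {n k e a e' : ℕ} (ha : a ≤ n) (hak : a * (n - a) ≤ k) (hm : MX n k e)
    (hm' : MX (n - a) (k - a * (n - a)) e') : a.factorial * e' ≤ e := by
  obtain ⟨⟨s, s1, s2, s3, s4⟩, -⟩ := hm'
  let f : Fin (n - a) ↪ Fin n := (Fin.castLEEmb (Nat.sub_le n a))
  have hcard : (univ.map f).card = n - a := by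
    rw [card_map, card_univ, Fintype.card_fin]
  have hcard' : (univ.map f)ᶜ.card = a := by
    rw [card_compl, hcard, Fintype.card_fin]
    omega
  obtain ⟨g1, g2⟩ := osum_main (f := f) (r := nor n) s1 s2 (fun _ h => h)
    (fun _ _ _ h _ => h) (R := univ.map f) rfl
  have e1 : lin (nor n) (univ.map f)ᶜ = a.factorial := by
    rw [lin_antichain (nor n) _ fun _ _ _ _ h => h, hcard']
  have e2 : cp (nor n) (univ.map f)ᶜ = 0 := by
    unfold cp C
    exact sum_eq_zero fun x _ => sum_eq_zero fun y _ => if_neg fun h => h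
  have g3 := hm.2 _ (osum_irr s1 fun _ h => h) (osum_tr s2 fun _ _ _ h _ => h) (by
    rw [g2, s3, e2, hcard, hcard', mul_comm (n - a) a]
    omega)
  rw [g1, s4, e1, mul_comm] at g3
  exact g3

end Pool.Agent.FTP
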