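import Pool.Agent.FTP.T8

/-!
# The logarithmic core
-/

set_option autoImplicit false

namespace Pool.Agent.FTP

open Finset Pool.Agent.MP_f1b527_co Pool.Agent.LRE Pool.Agent.LRP
open scoped Classical

variable {n : ℕ}

theorem lin_eq_le {r : Fin n → Fin n → Prop} (hr : ∀ x, ¬ r x x) : lin r univ = (le r).card := by
  rw [← extSet_ncard r hr, ncard_extSet]

theorem Best.mx {k : ℕ} {r : Fin n → Fin n → Prop} (h : Best k r) : MX n k (lin r univ) := by
  refine ⟨⟨r, h.nst.irr, h.nst.tr, h.cpk, rfl⟩, fun s s1 s2 s3 => ?_⟩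
  obtain ⟨t, t1, t2, t3, t4, t5⟩ := exists_total s s1 s2
  have h1 := h.le_card ⟨t1, t2, t3⟩ (t4.trans s3)
  rw [extSet_ncard s s1, extSet_ncard t t1, lin_eq_le t1] at t5
  rw [lin_eq_le h.nst.irr]
  exact t5.trans h1

/-- the points on the levels of `J` -/
noncomputable def WJ (lev : Fin n → ℕ) (J : Finset ℕ) : Finset (Fin n) :=
  univ.filter fun x => lev x ∈ J

theorem mem_WJ {lev : Fin n → ℕ} {J : Finset ℕ} {x : Fin n} : x ∈ WJ lev J ↔ lev x ∈ J := by
  unfold WJ
  rw [mem_filter]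
  exact ⟨fun h => h.2, fun h => ⟨mem_univ _, h⟩⟩

theorem not_NC {r : Fin n → Fin n → Prop} {lev : Fin n → ℕ} {H i : ℕ} (hi : i < H)
    (h : i ∉ NC r lev H) {x y : Fin n} (hx : lev x = i) (hy : lev y ≠ i) : r x y ∨ r y x := by
  by_contra hcon
  rw [not_or] at hcon
  exact h (mem_filter.2 ⟨mem_range.2 hi, x, y, hx, hy, hcon.1, hcon.2⟩)

theorem lin_LL {r : Fin n → Fin n → Prop} {lev : Fin n → ℕ} (hl : Lev r lev) (i : ℕ) :
    lin r (LL lev i) = (LL lev i).card.factorial :=
  lin_antichain r _ fun x hx y hy hxy => by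
    have := hl.lt x y hxy
    rw [mem_LL.1 hx, mem_LL.1 hy] at this
    exact lt_irrefl _ this

theorem cp_LL {r : Fin n → Fin n → Prop} {lev : Fin n → ℕ} (hl : Lev r lev) (i : ℕ) :
    cp r (LL lev i) = 0 := by
  unfold cp C
  refine sum_eq_zero fun x hx => sum_eq_zero fun y hy => if_neg fun hxy => ?_
  have := hl.lt x y hxy
  rw [mem_LL.1 hx, mem_LL.1 hy] at this
  exact lt_irrefl _ this

theorem clean {r : Fin n → Fin n → Prop} {lev : Fin n → ℕ} (hl : Lev r lev) (hr : Nst r) {H : ℕ}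
    (J : Finset ℕ) (hJ : J ⊆ range H \ NC r lev H) :
    lin r (WJ lev J) = ∏ i ∈ J, (LL lev i).card.factorial ∧
      (WJ lev J).card = ∑ i ∈ J, (LL lev i).card ∧
      2 * cp r (WJ lev J) + ∑ i ∈ J, (LL lev i).card ^ 2 = (WJ lev J).card ^ 2 := by
  induction J using Finset.induction_on with
  | empty =>
    have h1 : WJ lev ∅ = ∅ := by
      ext x
      rw [mem_WJ]
      exact ⟨fun h => absurd h (notMem_empty _), fun h => absurd h (notMem_empty _)⟩
    rw [h1, lin_empty]
    simp [cp]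
  | insert i J hi ih =>
    obtain ⟨g1, g2, g3⟩ := ih fun j hj => hJ (mem_insert_of_mem hj)
    have hiJ := mem_sdiff.1 (hJ (mem_insert_self i J))
    have h1 : WJ lev (insert i J) = LL lev i ∪ WJ lev J := by
      ext x
      rw [mem_union, mem_WJ, mem_LL, mem_WJ, mem_insert]
    have h2 : Disjoint (LL lev i) (WJ lev J) := by
      rw [disjoint_left]
      intro x hx hx'
      rw [mem_LL] at hx
      rw [mem_WJ, hx] at hx'
      exact hi hx'
    have h3 : ∀ x ∈ LL lev i, ∀ y ∈ WJ lev J, r x y ∨ r y x := by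
      intro x hx y hy
      refine not_NC (mem_range.1 hiJ.1) hiJ.2 (mem_LL.1 hx) fun hyi => hi ?_
      rw [← hyi]
      exact mem_WJ.1 hy
    rw [h1, lin_mul hr.irr hr.tr h2 h3, lin_LL hl, g1, card_union_of_disjoint h2, g2,
      cp_mul hr.irr hr.tr h2 h3, cp_LL hl, prod_insert hi, sum_insert hi, sum_insert hi]
    refine ⟨rfl, rfl, ?_⟩
    rw [g2] at g3
    rw [g2]
    nlinarith

/-- the core of an extremal relation -/
theorem core_main {k : ℕ} {r : Fin n → Fin n → Prop} (h : Best k r)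
    {lev : Fin n → ℕ} (hl : Lev r lev) {H : ℕ} (hH : ∀ x, lev x < H) :
    MX (WJ lev (NC r lev H)).card (cp r (WJ lev (NC r lev H))) (lin r (WJ lev (NC r lev H))) ∧
      lin r univ = (∏ i ∈ range H \ NC r lev H, (LL lev i).card.factorial) *
        lin r (WJ lev (NC r lev H)) ∧
      (WJ lev (NC r lev H)).card + ∑ i ∈ range H \ NC r lev H, (LL lev i).card = n ∧
      n ^ 2 + 2 * cp r (WJ lev (NC r lev H)) =
        2 * k + (WJ lev (NC r lev H)).card ^ 2 +
          ∑ i ∈ range H \ NC r lev H, (LL lev i).card ^ 2 := by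
  obtain ⟨g1, g2, g3⟩ := clean hl h.nst (range H \ NC r lev H) (Subset.refl _)
  set R := WJ lev (NC r lev H) with hR
  have hc : Rᶜ = WJ lev (range H \ NC r lev H) := by
    ext x
    rw [mem_compl, mem_WJ, mem_WJ, mem_sdiff, mem_range]
    exact ⟨fun h => ⟨hH x, h⟩, fun h => h.2⟩
  have hcomp : ∀ x ∈ R, ∀ y ∈ Rᶜ, r x y ∨ r y x := by
    intro x hx y hy
    rw [hc, mem_WJ, mem_sdiff, mem_range] at hy
    refine (not_NC hy.1 hy.2 rfl fun hxy => hy.2 ?_).symm
    rw [← hxy]
    exact mem_WJ.1 hx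
  obtain ⟨c1, c2, c3⟩ := core h.nst.irr h.nst.tr h.cpk h.mx hcomp
  have hcard : R.card + Rᶜ.card = n := by
    rw [card_add_card_compl, Fintype.card_fin]
  rw [← hc] at g1 g2 g3
  refine ⟨c1, ?_, ?_, ?_⟩
  · rw [c2, g1, mul_comm]
  · rw [← g2]
    exact hcard
  · rw [c3]
    nlinarith

/-- extraction of an antichain summand -/
theorem red_main {k : ℕ} {r : Fin n → Fin n → Prop} (h : Best k r)
    {lev : Fin n → ℕ} (hl : Lev r lev) {H i : ℕ} (hi : i < H) (hi2 : i ∉ NC r lev H) :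
    (LL lev i).card * (n - (LL lev i).card) ≤ k ∧
      MX (n - (LL lev i).card) (k - (LL lev i).card * (n - (LL lev i).card))
        (lin r (LL lev i)ᶜ) ∧
      lin r univ = (LL lev i).card.factorial * lin r (LL lev i)ᶜ := by
  have hcomp : ∀ x ∈ (LL lev i)ᶜ, ∀ y ∈ ((LL lev i)ᶜ)ᶜ, r x y ∨ r y x := by
    intro x hx y hy
    rw [compl_compl, mem_LL] at hy
    rw [mem_compl, mem_LL] at hx
    exact (not_NC hi hi2 hy hx).symm
  obtain ⟨c1, c2, c3⟩ := core h.nst.irr h.nst.tr h.cpk h.mx hcomp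
  have hcard : (LL lev i)ᶜ.card = n - (LL lev i).card := by
    rw [card_compl, Fintype.card_fin]
  rw [compl_compl, cp_LL hl, add_zero, hcard, mul_comm (n - _)] at c3
  rw [compl_compl, lin_LL hl] at c2
  rw [hcard] at c1
  have e1 : k - (LL lev i).card * (n - (LL lev i).card) = cp r (LL lev i)ᶜ := by omega
  rw [e1]
  exact ⟨by omega, c1, by rw [c2, mul_comm]⟩

/-- many levels give a clean one -/
theorem exists_clean (hn : 1 ≤ n) {k : ℕ} {r : Fin n → Fin n → Prop} (h : Best k r)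
    {lev : Fin n → ℕ} (hl : Lev r lev) {H : ℕ} (hH : ∀ x, lev x < H) {s : ℕ}
    (hs : n ^ 4 < 2 ^ (s + 1)) (hk : s * (n ^ 2 - 2 * k) < n ^ 2) : ∃ i < H, i ∉ NC r lev H := by
  have h1 := height_ge hl hH
  have h2 := M2_cp r (S := univ) h.nst.irr
    fun a c h1 h2 => h.nst.irr a (h.nst.tr a c a h1 h2)
  rw [card_univ, Fintype.card_fin, h.cpk] at h2
  have h3 : M2 r univ + n = n ^ 2 - 2 * k := by
    rw [sq]
    omega
  rw [h3] at h1
  have h4 : s < H := by
    by_contra hcon
    push Not at hcon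
    have := Nat.mul_le_mul_right (n ^ 2 - 2 * k) hcon
    omega
  have h5 : (NC r lev H).card < H := by
    by_contra hcon
    push Not at hcon
    have h6 := NC_bound hn h hl H
    have h7 : 2 ^ (s + 1) ≤ 2 ^ (NC r lev H).card := Nat.pow_le_pow_right (by norm_num) (by omega)
    omega
  by_contra hcon
  push Not at hcon
  have h6 : range H ⊆ NC r lev H := fun i hi => hcon i (mem_range.1 hi)
  have h7 := card_le_card h6
  rw [card_range] at h7
  omega

/-- the levels are not empty below the highest one -/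
theorem exists_height {r : Fin n → Fin n → Prop} {lev : Fin n → ℕ} (hl : Lev r lev) :
    ∃ H, (∀ x, lev x < H) ∧ ∀ i < H, ∃ x, lev x = i := by
  refine ⟨univ.sup fun x => lev x + 1, fun x => ?_, fun i hi => ?_⟩
  · exact Nat.lt_of_succ_le (le_sup (f := fun x => lev x + 1) (mem_univ x))
  · obtain ⟨x, -, hx⟩ := (Finset.lt_sup_iff).1 hi
    have key : ∀ d, ∀ x : Fin n, lev x = i + d → ∃ y, lev y = i := by
      intro d
      induction d with
      | zero => exact fun x hx => ⟨x, hx⟩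
      | succ d ih =>
        intro x hx
        obtain ⟨y, -, hy⟩ := hl.ex x (by omega)
        exact ih y (by omega)
    exact key (lev x - i) x (by omega)

end Pool.Agent.FTP
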